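import Pool.Agent.Helper64.E0.Walsh

/-!
# Strong ergodicity of the Bernoulli shift, and majorities
-/

open MeasureTheory Measure Filter Topology
open scoped ENNReal symmDiff

namespace Pool.Agent.Helper64.E0

theorem mp_perm (π : Equiv.Perm ℕ) :
    MeasurePreserving (fun (z : ℕ → Bool) n => z (π n)) (mu ℕ) (mu ℕ) := by
  constructor
  · rw [measurable_pi_iff]
    intro n
    exact measurable_pi_apply (π n)
  · exact Measure.map_infinitePi_infinitePi_of_inj (P := fun _ : ℕ => coin) π.injective

instance : Countable (FreeGroup Bool) := by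
  unfold FreeGroup
  infer_instance

theorem exists_perm : ∃ π : Bool → Equiv.Perm ℕ, ∀ (A : Set (ℕ → Bool)), MeasurableSet A →
    ∀ δ : ℝ, (∀ c, (mu ℕ).real (A ∆ ((fun z n => z (π c n)) ⁻¹' A)) ≤ δ) →
    (mu ℕ).real A * (1 - (mu ℕ).real A) ≤ 25 * δ := by
  obtain ⟨e⟩ : Nonempty (ℕ ≃ FreeGroup Bool) := nonempty_equiv_of_countable
  refine ⟨fun c => e.trans ((Equiv.mulLeft (FreeGroup.of c)).trans e.symm), fun A hA δ h => ?_⟩
  have hmp : MeasurePreserving (fun (z : FreeGroup Bool → Bool) n => z (e n))
      (mu (FreeGroup Bool)) (mu ℕ) := by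
    constructor
    · rw [measurable_pi_iff]
      intro n
      exact measurable_pi_apply (e n)
    · exact Measure.map_infinitePi_infinitePi_of_inj (P := fun _ : FreeGroup Bool => coin)
        e.injective
  have hreal : ∀ B : Set (ℕ → Bool), MeasurableSet B →
      (mu (FreeGroup Bool)).real ((fun z n => z (e n)) ⁻¹' B) = (mu ℕ).real B := by
    intro B hB
    unfold Measure.real
    rw [hmp.measure_preimage hB.nullMeasurableSet]
  have h1 := gap ((fun z n => z (e n)) ⁻¹' A) (hmp.measurable hA) δ fun c => by
    refine le_trans (le_of_eq ?_) (h c)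
    rw [← hreal _ (hA.symmDiff (((mp_perm _).measurable) hA))]
    congr 1
    ext z
    simp only [Set.mem_symmDiff, Set.mem_preimage, shift, Equiv.trans_apply, Equiv.coe_mulLeft,
      Equiv.apply_symm_apply]
  rwa [hreal A hA] at h1

/-- the permutations -/
noncomputable def perm : Bool → Equiv.Perm ℕ := exists_perm.choose

theorem gapN (A : Set (ℕ → Bool)) (hA : MeasurableSet A) (δ : ℝ)
    (h : ∀ c, (mu ℕ).real (A ∆ ((fun z n => z (perm c n)) ⁻¹' A)) ≤ δ) :
    (mu ℕ).real A * (1 - (mu ℕ).real A) ≤ 25 * δ :=
  exists_perm.choose_spec A hA δ h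

/-- the majority of the values -/
noncomputable def maj (g : (ℕ → Bool) → (ℕ → Bool)) (i : ℕ) : Bool :=
  decide (1 / 2 < (mu ℕ).real {z | g z i = true})

theorem measurableSet_eq_pi {g h : (ℕ → Bool) → (ℕ → Bool)} (hg : Measurable g)
    (hh : Measurable h) : MeasurableSet {z | g z = h z} := by
  have h1 : {z | g z = h z} = ⋂ i : ℕ, {z | g z i = h z i} := by
    ext z
    simp [funext_iff]
  rw [h1]
  refine MeasurableSet.iInter fun i => ?_
  exact measurableSet_eq_fun ((measurable_pi_apply i).comp hg) ((measurable_pi_apply i).comp hh)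

theorem majority (G : ℕ → (ℕ → Bool) → (ℕ → Bool)) (hG : ∀ k, Measurable (G k))
    (hmono : ∀ k z z', G k z = G k z' → G (k + 1) z = G (k + 1) z')
    (hinv : ∀ z c, ∃ k, G k z = G k fun n => z (perm c n)) :
    ∃ N, 1 / 2 < (mu ℕ).real {z | G N z = maj (G N)} := by
  have hmono' : ∀ k l, k ≤ l → ∀ z z', G k z = G k z' → G l z = G l z' := by
    intro k l hkl z z' h
    induction hkl with
    | refl => exact h
    | step _ ih => exact hmono _ _ _ ih
  set D : ℕ → Set (ℕ → Bool) := fun k => ⋂ c : Bool, {z | G k z = G k fun n => z (perm c n)} with hD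
  have hDm : ∀ k, MeasurableSet (D k) := fun k => MeasurableSet.iInter fun c =>
    measurableSet_eq_pi (hG k) ((hG k).comp (mp_perm (perm c)).measurable)
  have hDmono : Monotone D := by
    intro k l hkl z hz
    simp only [hD, Set.mem_iInter, Set.mem_ofPred_eq] at hz ⊢
    exact fun c => hmono' k l hkl _ _ (hz c)
  have hDU : ⋃ k, D k = Set.univ := by
    rw [Set.eq_univ_iff_forall]
    intro z
    obtain ⟨k1, h1⟩ := hinv z true
    obtain ⟨k2, h2⟩ := hinv z false
    rw [Set.mem_iUnion]
    refine ⟨max k1 k2, ?_⟩
    simp only [hD, Set.mem_iInter, Set.mem_ofPred_eq]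
    intro c
    cases c
    · exact hmono' k2 _ (le_max_right _ _) _ _ h2
    · exact hmono' k1 _ (le_max_left _ _) _ _ h1
  have hlim : Tendsto (fun k => (mu ℕ).real (D k)) atTop (𝓝 1) := by
    have h1 := tendsto_measure_iUnion_atTop (μ := mu ℕ) hDmono
    rw [hDU, measure_univ] at h1
    have h2 := (ENNReal.tendsto_toReal ENNReal.one_ne_top).comp h1
    rw [ENNReal.toReal_one] at h2
    exact h2
  obtain ⟨N, hN⟩ := (hlim.eventually (lt_mem_nhds (show (1 : ℝ) - 1 / 200 < 1 by norm_num))).exists
  refine ⟨N, ?_⟩
  have hDc : (mu ℕ).real (D N)ᶜ ≤ 1 / 200 := by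
    rw [probReal_compl_eq_one_sub (hDm N)]
    linarith
  -- the zero-one alternative
  have halt : ∀ B : Set (ℕ → Bool), MeasurableSet B →
      (mu ℕ).real (G N ⁻¹' B) < 1 / 4 ∨ 3 / 4 < (mu ℕ).real (G N ⁻¹' B) := by
    intro B hB
    have h1 := gapN (G N ⁻¹' B) (hG N hB) (1 / 200) fun c => by
      refine le_trans (measureReal_mono ?_) hDc
      intro z hz hzD
      simp only [hD, Set.mem_iInter, Set.mem_ofPred_eq] at hzD
      have h2 := hzD c
      simp only [Set.mem_symmDiff, Set.mem_preimage] at hz
      rw [← h2] at hz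
      tauto
    by_contra hcon
    push Not at hcon
    nlinarith [mul_nonneg (sub_nonneg.2 hcon.1) (sub_nonneg.2 hcon.2)]
  have hone : ∀ i, 3 / 4 < (mu ℕ).real {z | G N z i = maj (G N) i} := by
    intro i
    have hm : MeasurableSet {z : ℕ → Bool | z i = true} :=
      measurableSet_eq_fun (measurable_pi_apply i) measurable_const
    have h1 := halt {z | z i = true} hm
    have h2 : G N ⁻¹' {z | z i = true} = {z | G N z i = true} := rfl
    rw [h2] at h1
    by_cases h3 : 1 / 2 < (mu ℕ).real {z | G N z i = true}
    · have h4 : maj (G N) i = true := decide_eq_true h3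
      rw [h4]
      rcases h1 with h1 | h1
      · linarith
      · exact h1
    · have h4 : maj (G N) i = false := decide_eq_false h3
      rw [h4]
      have h5 : {z | G N z i = false} = {z | G N z i = true}ᶜ := by
        ext z
        simp
      rw [h5, probReal_compl_eq_one_sub (by rw [← h2]; exact hG N hm)]
      push Not at h3
      rcases h1 with h1 | h1
      · linarith
      · linarith
  set A : ℕ → Set (ℕ → Bool) := fun M => {z | ∀ i < M, G N z i = maj (G N) i} with hA
  have hAm : ∀ M, MeasurableSet (A M) := by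
    intro M
    have h1 : A M = ⋂ i : ℕ, ⋂ (_ : i < M), {z | G N z i = maj (G N) i} := by
      ext z
      simp [hA]
    rw [h1]
    refine MeasurableSet.iInter fun i => MeasurableSet.iInter fun _ => ?_
    exact measurableSet_eq_fun ((measurable_pi_apply i).comp (hG N)) measurable_const
  have hAbig : ∀ M, 3 / 4 < (mu ℕ).real (A M) := by
    intro M
    induction M with
    | zero =>
      have h1 : A 0 = Set.univ := by
        ext z
        simp [hA]
      rw [h1]
      simp
      norm_num
    | succ M ih =>
      have hB : MeasurableSet {z : ℕ → Bool | ∀ i < M + 1, z i = maj (G N) i} := by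
        have h1 : {z : ℕ → Bool | ∀ i < M + 1, z i = maj (G N) i} =
            ⋂ i : ℕ, ⋂ (_ : i < M + 1), {z | z i = maj (G N) i} := by
          ext z
          simp
        rw [h1]
        refine MeasurableSet.iInter fun i => MeasurableSet.iInter fun _ => ?_
        exact measurableSet_eq_fun (measurable_pi_apply i) measurable_const
      have h1 := halt _ hB
      have h2 : G N ⁻¹' {z : ℕ → Bool | ∀ i < M + 1, z i = maj (G N) i} = A (M + 1) := rfl
      rw [h2] at h1
      rcases h1 with h1 | h1
      · exfalso
        have h3 : (A (M + 1))ᶜ ⊆ (A M)ᶜ ∪ {z | G N z M = maj (G N) M}ᶜ := by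
          intro z hz
          by_contra hcon
          simp only [Set.mem_union, Set.mem_compl_iff, not_or, not_not] at hcon
          apply hz
          intro i hi
          rcases Nat.lt_succ_iff_lt_or_eq.1 hi with h | h
          · exact hcon.1 i h
          · rw [h]
            exact hcon.2
        have hm : MeasurableSet {z | G N z M = maj (G N) M} :=
          measurableSet_eq_fun ((measurable_pi_apply M).comp (hG N)) measurable_const
        have h4 : (mu ℕ).real (A (M + 1))ᶜ ≤ (mu ℕ).real (A M)ᶜ +
            (mu ℕ).real {z | G N z M = maj (G N) M}ᶜ :=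
          (measureReal_mono h3).trans (measureReal_union_le _ _)
        rw [probReal_compl_eq_one_sub (hAm _), probReal_compl_eq_one_sub (hAm _),
          probReal_compl_eq_one_sub hm] at h4
        linarith [hone M]
      · exact h1
  have hInter : {z | G N z = maj (G N)} = ⋂ M, A M := by
    ext z
    simp only [Set.mem_ofPred_eq, Set.mem_iInter, hA]
    constructor
    · intro h M i _
      rw [h]
    · intro h
      funext i
      exact h (i + 1) i (Nat.lt_succ_self i)
  have hlim2 : Tendsto (fun M => (mu ℕ).real (A M)) atTop (𝓝 ((mu ℕ).real (⋂ M, A M))) := by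
    have h1 := tendsto_measure_iInter_atTop (μ := mu ℕ) (s := A)
      (fun M => (hAm M).nullMeasurableSet)
      (fun M M' hM z hz i hi => hz i (lt_of_lt_of_le hi hM)) ⟨0, measure_ne_top _ _⟩
    exact (ENNReal.tendsto_toReal (measure_ne_top _ _)).comp h1
  rw [hInter]
  have h5 := ge_of_tendsto' hlim2 fun M => (hAbig M).le
  linarith

end Pool.Agent.Helper64.E0
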