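import Pool.Agent.Helper64.E0.FR
import Pool.Agent.Helper64.E0.Ergo

/-!
# Open approximations of finite rank predicates
-/

open MeasureTheory Measure Filter Topology
open scoped ENNReal

namespace Pool.Agent.Helper64.E0

/-- the restriction of `y` to the first `n` numbers -/
def pre (y : ℕ → Bool) (n : ℕ) : Finset ℕ := (Finset.range n).filter fun i => y i = true

theorem mem_pre {y : ℕ → Bool} {n i : ℕ} : i ∈ pre y n ↔ i < n ∧ y i = true := by
  unfold pre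
  simp

theorem pre_succ (y : ℕ → Bool) (n : ℕ) :
    pre y (n + 1) = if y n = true then insert n (pre y n) else pre y n := by
  ext i
  split_ifs with h
  · rw [Finset.mem_insert, mem_pre, mem_pre]
    constructor
    · rintro ⟨h1, h2⟩
      rcases Nat.lt_succ_iff_lt_or_eq.1 h1 with h3 | h3
      · exact Or.inr ⟨h3, h2⟩
      · exact Or.inl h3
    · rintro (h1 | ⟨h1, h2⟩)
      · rw [h1]
        exact ⟨Nat.lt_succ_self n, h⟩
      · exact ⟨Nat.lt_succ_of_lt h1, h2⟩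
  · rw [mem_pre, mem_pre]
    constructor
    · rintro ⟨h1, h2⟩
      rcases Nat.lt_succ_iff_lt_or_eq.1 h1 with h3 | h3
      · exact ⟨h3, h2⟩
      · rw [h3] at h2
        exact absurd h2 h
    · rintro ⟨h1, h2⟩
      exact ⟨Nat.lt_succ_of_lt h1, h2⟩

theorem isClopen_pre (n : ℕ) : ∀ R : Finset ℕ → Prop, IsClopen {y : ℕ → Bool | R (pre y n)} := by
  induction n with
  | zero =>
    intro R
    have h1 : ∀ y : ℕ → Bool, pre y 0 = ∅ := fun y => by simp [pre]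
    simp_rw [h1]
    by_cases h : R ∅
    · simp [h, isClopen_univ]
    · simp [h, isClopen_empty]
  | succ n ih =>
    intro R
    have hc : IsClopen {y : ℕ → Bool | y n = true} :=
      (isClopen_discrete {true}).preimage (continuous_apply n)
    have h1 : {y : ℕ → Bool | R (pre y (n + 1))} =
        ({y | y n = true} ∩ {y | R (insert n (pre y n))}) ∪
        ({y | y n = true}ᶜ ∩ {y | R (pre y n)}) := by
      ext y
      simp only [Set.mem_ofPred_eq, pre_succ, Set.mem_union, Set.mem_inter_iff, Set.mem_compl_iff]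
      split_ifs with h <;> simp [h]
    rw [h1]
    exact (hc.inter (ih fun S => R (insert n S))).union (hc.compl.inter (ih R))

theorem measurable_pre (n : ℕ) (R : Finset ℕ → Prop) :
    MeasurableSet {y : ℕ → Bool | R (pre y n)} := (isClopen_pre n R).isOpen.measurableSet

/-- the open set coded by `u` -/
def Op (u : ℕ → Finset ℕ → Prop) : Set (ℕ → Bool) := {y | ∃ n, u n (pre y n)}

/-- monotone codes -/
def Mon (u : ℕ → Finset ℕ → Prop) : Prop := ∀ y n, u n (pre y n) → u (n + 1) (pre y (n + 1))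

theorem isOpen_Op (u : ℕ → Finset ℕ → Prop) : IsOpen (Op u) := by
  have h1 : Op u = ⋃ n, {y | u n (pre y n)} := by
    ext y
    simp [Op]
  rw [h1]
  exact isOpen_iUnion fun n => (isClopen_pre n (u n)).isOpen

theorem measurable_Op (u : ℕ → Finset ℕ → Prop) : MeasurableSet (Op u) :=
  (isOpen_Op u).measurableSet

theorem Mon.le {u : ℕ → Finset ℕ → Prop} (hu : Mon u) {y : ℕ → Bool} {n m : ℕ} (hnm : n ≤ m)
    (h : u n (pre y n)) : u m (pre y m) := by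
  induction hnm with
  | refl => exact h
  | step _ ih => exact hu _ _ ih

theorem Mon.mem_iff {u : ℕ → Finset ℕ → Prop} (hu : Mon u) {y : ℕ → Bool} :
    y ∈ Op u ↔ ∀ᶠ n in atTop, u n (pre y n) := by
  constructor
  · rintro ⟨n, hn⟩
    exact eventually_atTop.2 ⟨n, fun m hm => hu.le hm hn⟩
  · intro h
    exact h.exists

theorem Mon.inter {u v : ℕ → Finset ℕ → Prop} (hu : Mon u) (hv : Mon v) :
    Op (fun n S => u n S ∧ v n S) = Op u ∩ Op v := by
  have huv : Mon (fun n S => u n S ∧ v n S) := fun y n h => ⟨hu y n h.1, hv y n h.2⟩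
  ext y
  rw [Set.mem_inter_iff, hu.mem_iff, hv.mem_iff, huv.mem_iff, eventually_and]

theorem Mon.lt_measure {u : ℕ → Finset ℕ → Prop} (hu : Mon u) (q : ℝ≥0∞) :
    q < mu ℕ (Op u) ↔ ∃ p : ℕ × Finset (Finset ℕ), (∀ S, S ∈ p.2 → u p.1 S) ∧
      q < mu ℕ {y | pre y p.1 ∈ p.2} := by
  classical
  have h1 : Op u = ⋃ n, {y | u n (pre y n)} := by
    ext y
    simp [Op]
  constructor
  · intro h
    have hm : Monotone fun n => {y : ℕ → Bool | u n (pre y n)} :=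
      fun n m hnm y hy => hu.le hnm hy
    rw [h1, hm.measure_iUnion, lt_iSup_iff] at h
    obtain ⟨n, hn⟩ := h
    refine ⟨(n, (Finset.range n).powerset.filter (u n)), ?_, ?_⟩
    · intro S hS
      exact (Finset.mem_filter.1 hS).2
    · have h2 : {y : ℕ → Bool | pre y n ∈ (Finset.range n).powerset.filter (u n)} =
          {y | u n (pre y n)} := by
        ext y
        simp only [Set.mem_ofPred_eq, Finset.mem_filter, Finset.mem_powerset, and_iff_right_iff_imp]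
        intro _
        exact Finset.filter_subset _ _
      simp only
      rw [h2]
      exact hn
  · rintro ⟨p, hp, hq⟩
    refine lt_of_lt_of_le hq (measure_mono ?_)
    intro y hy
    exact ⟨p.1, hp _ hy⟩

/-- the measure of a coded open set -/
theorem BF.lt_measure_Op {g : Prop} {ι : Type} {V : (ℕ → Bool) → ι → ℕ → Finset ℕ → Prop}
    (hV : BF g fun x _ (q : ι × ℕ × Finset ℕ) => V x q.1 q.2.1 q.2.2)
    (hmon : ∀ x i, Mon (V x i)) (q : ι → ℝ≥0∞) :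
    BF g fun x _ i => q i < mu ℕ (Op (V x i)) := by
  have h1 : BF g fun x _ (i : ι) => ∃ p : ℕ × Finset (Finset ℕ), (∀ S, S ∈ p.2 → V x i p.1 S) ∧
      q i < mu ℕ {y | pre y p.1 ∈ p.2} := by
    refine BF.ex' (BF.and ?_ (BF.const fun r : ι × ℕ × Finset (Finset ℕ) =>
      q r.1 < mu ℕ {y | pre y r.2.1 ∈ r.2.2}))
    refine BF.all' (BF.imp (BF.const fun r : (ι × ℕ × Finset (Finset ℕ)) × Finset ℕ =>
      r.2 ∈ r.1.2.2) ?_)
    exact hV.sub fun r : (ι × ℕ × Finset (Finset ℕ)) × Finset ℕ => (r.1.1, r.1.2.1, r.2)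
  exact h1.of_iff fun x y i => ((hmon x i).lt_measure (q i)).symm

theorem BF.measurable {g : Prop} {ι : Type} {P : (ℕ → Bool) → (ℕ → Bool) → ι → Prop} (h : BF g P) :
    ∀ x i, MeasurableSet {y | P x y i} := by
  induction h with
  | const R => exact fun x i => MeasurableSet.const _
  | fst φ => exact fun x i => MeasurableSet.const _
  | snd φ => exact fun x i => measurableSet_eq_fun (measurable_pi_apply _) measurable_const
  | neg _ ih => exact fun x i => (ih x i).compl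
  | and _ _ ih ih' => exact fun x i => (ih x i).inter (ih' x i)
  | @ex ι κ hκ P _ ih =>
    intro x i
    have h1 : {y | ∃ k, P x y (i, k)} = ⋃ k, {y | P x y (i, k)} := by
      ext y
      simp
    rw [h1]
    exact MeasurableSet.iUnion fun k => ih x (i, k)
  | glue _ _ _ ih => exact fun x i => ih i.2 x i.1

/-- approximability from outside by uniformly coded open sets -/
def Apx (g : Prop) {ι : Type} (P : (ℕ → Bool) → (ℕ → Bool) → ι → Prop) : Prop :=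
  ∃ U : (ℕ → Bool) → ι → ℕ → ℕ → Finset ℕ → Prop,
    (BF g fun x _ (q : ι × ℕ × ℕ × Finset ℕ) => U x q.1 q.2.1 q.2.2.1 q.2.2.2) ∧
    (∀ x i e, Mon (U x i e)) ∧ (∀ x i e y, P x y i → y ∈ Op (U x i e)) ∧
    ∀ x i e, mu ℕ {y | y ∈ Op (U x i e) ∧ ¬ P x y i} ≤ 2⁻¹ ^ e

theorem half_add (e : ℕ) : (2⁻¹ : ℝ≥0∞) ^ (e + 1) + 2⁻¹ ^ (e + 1) = 2⁻¹ ^ e := by
  rw [pow_succ, ← mul_add, ENNReal.inv_two_add_inv_two, mul_one]

theorem tsum_le {κ : Type} {enc : κ → ℕ} (henc : Function.Injective enc) (e : ℕ) :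
    ∑' k, (2⁻¹ : ℝ≥0∞) ^ (e + 1 + enc k) ≤ 2⁻¹ ^ e := by
  have h1 : ∑' k, (2⁻¹ : ℝ≥0∞) ^ (e + 1 + enc k) ≤ ∑' n : ℕ, (2⁻¹ : ℝ≥0∞) ^ (e + 1 + n) :=
    ENNReal.tsum_comp_le_tsum_of_injective henc fun n => (2⁻¹ : ℝ≥0∞) ^ (e + 1 + n)
  refine h1.trans ?_
  simp_rw [pow_add]
  rw [ENNReal.tsum_mul_left, ENNReal.tsum_geometric, ENNReal.one_sub_inv_two, inv_inv, pow_one,
    mul_assoc, ENNReal.inv_mul_cancel (by norm_num) (by norm_num), mul_one]

theorem Apx.of_clopen {g : Prop} {ι : Type} {P : (ℕ → Bool) → (ℕ → Bool) → ι → Prop}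
    {U : (ℕ → Bool) → ι → ℕ → Finset ℕ → Prop}
    (hU : BF g fun x _ (q : ι × ℕ × Finset ℕ) => U x q.1 q.2.1 q.2.2)
    (hmon : ∀ x i, Mon (U x i)) (hP : ∀ x i y, P x y i ↔ y ∈ Op (U x i)) : Apx g P := by
  refine ⟨fun x i _ => U x i, hU.sub fun q : ι × ℕ × ℕ × Finset ℕ => (q.1, q.2.2), fun x i _ =>
    hmon x i, fun x i _ y h => (hP x i y).1 h, fun x i e => ?_⟩
  have h1 : {y | y ∈ Op (U x i) ∧ ¬ P x y i} = ∅ := by
    rw [Set.eq_empty_iff_forall_notMem]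
    rintro y ⟨h, h'⟩
    exact h' ((hP x i y).2 h)
  rw [h1, measure_empty]
  exact zero_le

theorem Apx.nn {g : Prop} {ι : Type} {P : (ℕ → Bool) → (ℕ → Bool) → ι → Prop} (h : Apx g P) :
    Apx g fun x y i => ¬ ¬ P x y i := by
  simpa only [Classical.not_not] using h

theorem Apx.and {g : Prop} {ι : Type} {P Q : (ℕ → Bool) → (ℕ → Bool) → ι → Prop} (h : Apx g P)
    (h' : Apx g Q) : Apx g fun x y i => P x y i ∧ Q x y i := by
  obtain ⟨U, hU, hUm, hUs, hUl⟩ := h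
  obtain ⟨V, hV, hVm, hVs, hVl⟩ := h'
  refine ⟨fun x i e n S => U x i (e + 1) n S ∧ V x i (e + 1) n S, ?_, ?_, ?_, ?_⟩
  · exact (hU.sub fun q : ι × ℕ × ℕ × Finset ℕ => (q.1, q.2.1 + 1, q.2.2)).and
      (hV.sub fun q : ι × ℕ × ℕ × Finset ℕ => (q.1, q.2.1 + 1, q.2.2))
  · exact fun x i e y n h => ⟨hUm _ _ _ _ _ h.1, hVm _ _ _ _ _ h.2⟩
  · intro x i e y h
    rw [Mon.inter (hUm _ _ _) (hVm _ _ _)]
    exact ⟨hUs _ _ _ _ h.1, hVs _ _ _ _ h.2⟩
  · intro x i e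
    rw [Mon.inter (hUm _ _ _) (hVm _ _ _), ← half_add]
    refine le_trans (measure_mono ?_) ((measure_union_le _ _).trans
      (add_le_add (hUl x i (e + 1)) (hVl x i (e + 1))))
    rintro y ⟨⟨h1, h2⟩, h3⟩
    by_cases h4 : P x y i
    · exact Or.inr ⟨h2, fun h5 => h3 ⟨h4, h5⟩⟩
    · exact Or.inl ⟨h1, h4⟩

theorem Apx.ex {g : Prop} {ι κ : Type} [Countable κ] {P : (ℕ → Bool) → (ℕ → Bool) → ι × κ → Prop}
    (h : Apx g P) : Apx g fun x y i => ∃ k, P x y (i, k) := by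
  obtain ⟨U, hU, hUm, hUs, hUl⟩ := h
  obtain ⟨enc, henc⟩ := Countable.exists_injective_nat κ
  refine ⟨fun x i e n S => ∃ k, U x (i, k) (e + 1 + enc k) n S, ?_, ?_, ?_, ?_⟩
  · exact BF.ex' (hU.sub fun q : (ι × ℕ × ℕ × Finset ℕ) × κ =>
      ((q.1.1, q.2), q.1.2.1 + 1 + enc q.2, q.1.2.2))
  · rintro x i e y n ⟨k, hk⟩
    exact ⟨k, hUm _ _ _ _ _ hk⟩
  · rintro x i e y ⟨k, hk⟩
    obtain ⟨n, hn⟩ := hUs x (i, k) (e + 1 + enc k) y hk
    exact ⟨n, k, hn⟩
  · intro x i e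
    refine le_trans (measure_mono ?_) ((measure_iUnion_le fun k : κ =>
      {y | y ∈ Op (U x (i, k) (e + 1 + enc k)) ∧ ¬ P x y (i, k)}).trans
      ((ENNReal.tsum_le_tsum fun k => hUl x (i, k) (e + 1 + enc k)).trans (tsum_le henc e)))
    rintro y ⟨⟨n, k, hk⟩, h2⟩
    rw [Set.mem_iUnion]
    exact ⟨k, ⟨n, hk⟩, fun h3 => h2 ⟨k, h3⟩⟩

theorem Apx.not_ex {g : Prop} {ι κ : Type} [Countable κ] {P : (ℕ → Bool) → (ℕ → Bool) → ι × κ → Prop}
    (hPm : ∀ x i, MeasurableSet {y | P x y i}) (h : Apx g P) (h' : Apx g fun x y i => ¬ P x y i) :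
    Apx g fun x y i => ¬ ∃ k, P x y (i, k) := by
  obtain ⟨U, hU, hUm, hUs, hUl⟩ := h.ex
  obtain ⟨V, hV, hVm, hVs, hVl⟩ := h'
  obtain ⟨enc, henc⟩ := Countable.exists_injective_nat κ
  -- the finite intersections
  set W : (ℕ → Bool) → ι → ℕ → ℕ → ℕ → Finset ℕ → Prop := fun x i e M n S =>
    ∀ k, enc k ≤ M → V x (i, k) (e + 2 + enc k) n S with hW
  have hWB : BF g fun x _ (q : (ι × ℕ × ℕ) × ℕ × Finset ℕ) =>
      W x q.1.1 q.1.2.1 q.1.2.2 q.2.1 q.2.2 :=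
    BF.all' (BF.imp (BF.const fun q : ((ι × ℕ × ℕ) × ℕ × Finset ℕ) × κ =>
      enc q.2 ≤ q.1.1.2.2) (hV.sub fun q : ((ι × ℕ × ℕ) × ℕ × Finset ℕ) × κ =>
        ((q.1.1.1, q.2), q.1.1.2.1 + 2 + enc q.2, q.1.2)))
  have hWm : ∀ x i e M, Mon (W x i e M) := fun x i e M y n h k hk => hVm _ _ _ _ _ (h k hk)
  have hWmem : ∀ x i e M y, y ∈ Op (W x i e M) ↔ ∀ k, enc k ≤ M →
      y ∈ Op (V x (i, k) (e + 2 + enc k)) := by
    intro x i e M y
    rw [(hWm x i e M).mem_iff]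
    have hfin : {k : κ | enc k ≤ M}.Finite :=
      (Set.finite_Iic M).preimage henc.injOn
    have h1 := Filter.eventually_all_finite (l := atTop) (p := fun (k : κ) (n : ℕ) =>
      V x (i, k) (e + 2 + enc k) n (pre y n)) hfin
    simp only [Set.mem_ofPred_eq] at h1
    rw [hW, h1]
    exact forall_congr' fun k => forall_congr' fun _ => ((hVm _ _ _).mem_iff).symm
  -- the condition on the number of factors
  set C : (ℕ → Bool) → ι → ℕ → ℕ → Prop := fun x i e M =>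
    ¬ (2⁻¹ : ℝ≥0∞) ^ e < mu ℕ (Op fun n S => W x i e M n S ∧ U x i (e + 2) n S) with hC
  have hCB : BF g fun x _ (q : ι × ℕ × ℕ) => C x q.1 q.2.1 q.2.2 := by
    refine BF.neg (BF.lt_measure_Op (ι := ι × ℕ × ℕ)
      (V := fun x q n S => W x q.1 q.2.1 q.2.2 n S ∧ U x q.1 (q.2.1 + 2) n S) ?_ ?_ _)
    · exact (hWB.sub fun q : (ι × ℕ × ℕ) × ℕ × Finset ℕ => q).and
        (hU.sub fun q : (ι × ℕ × ℕ) × ℕ × Finset ℕ => (q.1.1, q.1.2.1 + 2, q.2))
    · exact fun x q y n h => ⟨hWm _ _ _ _ _ _ h.1, hUm _ _ _ _ _ h.2⟩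
  have hCex : ∀ x i e, ∃ M, C x i e M := by
    intro x i e
    have hBm : MeasurableSet {y | ∃ k, P x y (i, k)} := by
      have h1 : {y | ∃ k, P x y (i, k)} = ⋃ k, {y | P x y (i, k)} := by
        ext y
        simp
      rw [h1]
      exact MeasurableSet.iUnion fun k => hPm x (i, k)
    have hlim := tendsto_measure_iInter_atTop (μ := mu ℕ)
      (s := fun M => Op (W x i e M) ∩ {y | ∃ k, P x y (i, k)})
      (fun M => ((measurable_Op _).inter hBm).nullMeasurableSet)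
      (fun M M' hM y hy => ⟨(hWmem _ _ _ _ _).2 fun k hk =>
        (hWmem _ _ _ _ _).1 hy.1 k (hk.trans hM), hy.2⟩) ⟨0, measure_ne_top _ _⟩
    have hle : mu ℕ (⋂ M, Op (W x i e M) ∩ {y | ∃ k, P x y (i, k)}) ≤ 2⁻¹ ^ (e + 1) := by
      refine le_trans (measure_mono ?_) ((measure_iUnion_le fun k : κ =>
        {y | y ∈ Op (V x (i, k) (e + 2 + enc k)) ∧ ¬ ¬ P x y (i, k)}).trans
        ((ENNReal.tsum_le_tsum fun k => hVl x (i, k) (e + 2 + enc k)).trans
          (tsum_le henc (e + 1))))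
      intro y hy
      rw [Set.mem_iInter] at hy
      obtain ⟨k, hk⟩ := (hy 0).2
      rw [Set.mem_iUnion]
      exact ⟨k, (hWmem _ _ _ _ _).1 (hy (enc k)).1 k le_rfl, not_not.2 hk⟩
    have hlt : mu ℕ (⋂ M, Op (W x i e M) ∩ {y | ∃ k, P x y (i, k)}) <
        2⁻¹ ^ (e + 1) + 2⁻¹ ^ (e + 2) := by
      refine lt_of_le_of_lt hle (ENNReal.lt_add_right ?_ ?_)
      · exact ENNReal.pow_ne_top (by norm_num)
      · exact pow_ne_zero _ (by norm_num)
    obtain ⟨M, hM⟩ := (hlim.eventually (gt_mem_nhds hlt)).exists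
    refine ⟨M, ?_⟩
    simp only [hC, not_lt]
    rw [Mon.inter (hWm x i e M) (hUm x i (e + 2))]
    have h1 : Op (W x i e M) ∩ Op (U x i (e + 2)) ⊆
        (Op (W x i e M) ∩ {y | ∃ k, P x y (i, k)}) ∪
        {y | y ∈ Op (U x i (e + 2)) ∧ ¬ ∃ k, P x y (i, k)} := by
      rintro y ⟨h1, h2⟩
      by_cases h3 : ∃ k, P x y (i, k)
      · exact Or.inl ⟨h1, h3⟩
      · exact Or.inr ⟨h2, h3⟩
    refine (measure_mono h1).trans ((measure_union_le _ _).trans
      ((add_le_add hM.le (hUl x i (e + 2))).trans ?_))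
    rw [add_assoc, half_add (e + 1), half_add e]
  refine ⟨fun x i e n S => ∀ M, (∀ M' < M, ¬ C x i e M') → W x i e M n S, ?_, ?_, ?_, ?_⟩
  · refine BF.all' (BF.imp (BF.all' (BF.imp
      (BF.const fun q : ((ι × ℕ × ℕ × Finset ℕ) × ℕ) × ℕ => q.2 < q.1.2)
      (BF.neg (hCB.sub fun q : ((ι × ℕ × ℕ × Finset ℕ) × ℕ) × ℕ =>
        (q.1.1.1, q.1.1.2.1, q.2)))))
      (hWB.sub fun q : (ι × ℕ × ℕ × Finset ℕ) × ℕ => ((q.1.1, q.1.2.1, q.2), q.1.2.2)))
  · intro x i e y n h M hM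
    exact hWm _ _ _ _ _ _ (h M hM)
  · intro x i e y hy
    have hm : Mon fun n S => ∀ M, (∀ M' < M, ¬ C x i e M') → W x i e M n S :=
      fun y n h M hM => hWm _ _ _ _ _ _ (h M hM)
    classical
    obtain ⟨M₀, hM₀⟩ := hCex x i e
    have h1 : y ∈ Op (W x i e M₀) := by
      rw [hWmem]
      intro k _
      exact hVs x (i, k) _ y fun h => hy ⟨k, h⟩
    obtain ⟨n, hn⟩ := h1
    refine ⟨n, fun M hM => ?_⟩
    have h2 : M ≤ M₀ := by
      by_contra hcon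
      push Not at hcon
      exact hM M₀ hcon hM₀
    exact fun k hk => hn k (hk.trans h2)
  · intro x i e
    classical
    set M₀ := Nat.find (hCex x i e) with hM₀
    have hCM : C x i e M₀ := Nat.find_spec (hCex x i e)
    simp only [hC, not_lt] at hCM
    rw [Mon.inter (hWm x i e M₀) (hUm x i (e + 2))] at hCM
    refine le_trans (measure_mono ?_) hCM
    rintro y ⟨⟨n, hn⟩, hy⟩
    rw [not_not] at hy
    refine ⟨⟨n, hn M₀ fun M' hM' => Nat.find_min (hCex x i e) hM'⟩, hUs _ _ _ _ hy⟩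

theorem Apx.glue {g : Prop} {ι κ : Type} (hκ : Countable κ) (hg : g)
    {P : κ → (ℕ → Bool) → (ℕ → Bool) → ι → Prop} (h : ∀ k, Apx g (P k)) :
    Apx g fun x y (p : ι × κ) => P p.2 x y p.1 := by
  choose U hU hUm hUs hUl using h
  refine ⟨fun x p e n S => U p.2 x p.1 e n S, ?_, fun x p e => hUm p.2 x p.1 e,
    fun x p e y h => hUs p.2 x p.1 e y h, fun x p e => hUl p.2 x p.1 e⟩
  exact (BF.glue hκ hg (P := fun k x _ (q : ι × ℕ × ℕ × Finset ℕ) =>
    U k x q.1 q.2.1 q.2.2.1 q.2.2.2) hU).sub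
    fun q : (ι × κ) × ℕ × ℕ × Finset ℕ => ((q.1.1, q.2), q.1.2)

theorem BF.apx {g : Prop} {ι : Type} {P : (ℕ → Bool) → (ℕ → Bool) → ι → Prop} (h : BF g P) :
    Apx g P ∧ Apx g fun x y i => ¬ P x y i := by
  induction h with
  | @const ι R =>
    refine ⟨Apx.of_clopen (U := fun _ i _ _ => R i)
      (BF.const fun q : ι × ℕ × Finset ℕ => R q.1) (fun x i y n h => h) fun x i y => ?_,
      Apx.of_clopen (U := fun _ i _ _ => ¬ R i)
      (BF.const fun q : ι × ℕ × Finset ℕ => ¬ R q.1) (fun x i y n h => h) fun x i y => ?_⟩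
    · simp [Op]
    · simp [Op]
  | @fst ι φ =>
    refine ⟨Apx.of_clopen (U := fun x i _ _ => x (φ i) = true)
      (BF.fst fun q : ι × ℕ × Finset ℕ => φ q.1) (fun x i y n h => h) fun x i y => ?_,
      Apx.of_clopen (U := fun x i _ _ => ¬ x (φ i) = true)
      (BF.fst fun q : ι × ℕ × Finset ℕ => φ q.1).neg (fun x i y n h => h) fun x i y => ?_⟩
    · simp [Op]
    · simp [Op]
  | @snd ι φ =>
    refine ⟨Apx.of_clopen (U := fun x i n S => φ i < n ∧ φ i ∈ S)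
      (BF.const fun q : ι × ℕ × Finset ℕ => φ q.1 < q.2.1 ∧ φ q.1 ∈ q.2.2) ?_ fun x i y => ?_,
      Apx.of_clopen (U := fun x i n S => φ i < n ∧ ¬ φ i ∈ S)
      (BF.const fun q : ι × ℕ × Finset ℕ => φ q.1 < q.2.1 ∧ ¬ φ q.1 ∈ q.2.2) ?_ fun x i y => ?_⟩
    · rintro x i y n ⟨h1, h2⟩
      exact ⟨h1.trans (Nat.lt_succ_self n), mem_pre.2 ⟨h1.trans (Nat.lt_succ_self n),
        (mem_pre.1 h2).2⟩⟩
    · constructor
      · intro h
        exact ⟨φ i + 1, Nat.lt_succ_self _, mem_pre.2 ⟨Nat.lt_succ_self _, h⟩⟩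
      · rintro ⟨n, h1, h2⟩
        exact (mem_pre.1 h2).2
    · rintro x i y n ⟨h1, h2⟩
      refine ⟨h1.trans (Nat.lt_succ_self n), fun h3 => h2 (mem_pre.2 ⟨h1, (mem_pre.1 h3).2⟩)⟩
    · constructor
      · intro h
        exact ⟨φ i + 1, Nat.lt_succ_self _, fun h2 => h (mem_pre.1 h2).2⟩
      · rintro ⟨n, h1, h2⟩ h3
        exact h2 (mem_pre.2 ⟨h1, h3⟩)
  | neg _ ih => exact ⟨ih.2, ih.1.nn⟩
  | @and ι P Q _ _ ih ih' =>
    refine ⟨ih.1.and ih'.1, ?_⟩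
    -- a disjunction is an existential quantifier over the booleans
    obtain ⟨U, hU, hUm, hUs, hUl⟩ := ih.2
    obtain ⟨V, hV, hVm, hVs, hVl⟩ := ih'.2
    refine ⟨fun x i e n S => U x i (e + 1) n S ∨ V x i (e + 1) n S, ?_, ?_, ?_, ?_⟩
    · exact (hU.sub fun q : ι × ℕ × ℕ × Finset ℕ => (q.1, q.2.1 + 1, q.2.2)).or
        (hV.sub fun q : ι × ℕ × ℕ × Finset ℕ => (q.1, q.2.1 + 1, q.2.2))
    · rintro x i e y n (h | h)
      · exact Or.inl (hUm _ _ _ _ _ h)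
      · exact Or.inr (hVm _ _ _ _ _ h)
    · intro x i e y h
      by_cases h4 : P x y i
      · obtain ⟨n, hn⟩ := hVs x i (e + 1) y fun h5 => h ⟨h4, h5⟩
        exact ⟨n, Or.inr hn⟩
      · obtain ⟨n, hn⟩ := hUs x i (e + 1) y h4
        exact ⟨n, Or.inl hn⟩
    · intro x i e
      rw [← half_add]
      refine le_trans (measure_mono ?_) ((measure_union_le _ _).trans
        (add_le_add (hUl x i (e + 1)) (hVl x i (e + 1))))
      rintro y ⟨⟨n, h1 | h1⟩, h3⟩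
      · rw [not_not] at h3
        exact Or.inl ⟨⟨n, h1⟩, not_not.2 h3.1⟩
      · rw [not_not] at h3
        exact Or.inr ⟨⟨n, h1⟩, not_not.2 h3.2⟩
  | @ex ι κ hκ P hP ih => exact ⟨ih.1.ex, Apx.not_ex hP.measurable ih.1 ih.2⟩
  | @glue ι κ hκ hg P _ ih => exact ⟨Apx.glue hκ hg fun k => (ih k).1,
      Apx.glue (P := fun k x y i => ¬ P k x y i) hκ hg fun k => (ih k).2⟩

theorem exists_pow {q m : ℝ≥0∞} (h : q < m) : ∃ e : ℕ, q + 2⁻¹ ^ e < m := by
  have h1 : Tendsto (fun e : ℕ => q + (2⁻¹ : ℝ≥0∞) ^ e) atTop (𝓝 (q + 0)) :=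
    tendsto_const_nhds.add (ENNReal.tendsto_pow_atTop_nhds_zero_of_lt_one (by norm_num))
  rw [add_zero] at h1
  exact (h1.eventually (gt_mem_nhds h)).exists

/-- the measure quantifier -/
theorem BF.lt_measure {g : Prop} {ι : Type} {P : (ℕ → Bool) → (ℕ → Bool) → ι → Prop} (h : BF g P)
    (q : ι → ℝ≥0∞) : BF g fun x _ i => q i < mu ℕ {y | P x y i} := by
  obtain ⟨U, hU, hUm, hUs, hUl⟩ := h.apx.1
  have h1 : BF g fun x _ (i : ι) => ∃ e : ℕ, q i + 2⁻¹ ^ e < mu ℕ (Op (U x i e)) := by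
    refine BF.ex' ?_
    exact BF.lt_measure_Op (ι := ι × ℕ) (V := fun x q n S => U x q.1 q.2 n S)
      (hU.sub fun q : (ι × ℕ) × ℕ × Finset ℕ => (q.1.1, q.1.2, q.2)) (fun x q => hUm _ _ _)
      fun p => q p.1 + 2⁻¹ ^ p.2
  refine h1.of_iff fun x y i => ⟨?_, ?_⟩
  · rintro ⟨e, he⟩
    have h2 : mu ℕ (Op (U x i e)) ≤ mu ℕ {y | P x y i} + 2⁻¹ ^ e := by
      refine le_trans (measure_mono ?_) ((measure_union_le _ _).trans
        (add_le_add le_rfl (hUl x i e)))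
      intro y hy
      by_cases h3 : P x y i
      · exact Or.inl h3
      · exact Or.inr ⟨hy, h3⟩
    have h3 := lt_of_lt_of_le he h2
    exact lt_of_add_lt_add_right h3
  · intro h2
    obtain ⟨e, he⟩ := exists_pow h2
    exact ⟨e, lt_of_lt_of_le he (measure_mono fun y hy => hUs x i e y hy)⟩

end Pool.Agent.Helper64.E0
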