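import Pool.Agent.Helper64.E0.Defs

/-!
# Properties of arithmetical definability
-/

namespace Pool.Agent.Helper64.E0

namespace ADef

variable {O : ℕ → Bool} {m k : ℕ}

theorem of_iff {R S : (Fin m → ℕ) → Prop} (h : ADef O m R) (hRS : ∀ v, R v ↔ S v) :
    ADef O m S := by
  have : R = S := funext fun v => propext (hRS v)
  rwa [← this]

theorem or {R S : (Fin m → ℕ) → Prop} (h : ADef O m R) (h' : ADef O m S) :
    ADef O m fun v => R v ∨ S v :=
  (h.neg.and h'.neg).neg.of_iff fun v => by tauto

theorem imp {R S : (Fin m → ℕ) → Prop} (h : ADef O m R) (h' : ADef O m S) :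
    ADef O m fun v => R v → S v :=
  (h.and h'.neg).neg.of_iff fun v => by tauto

theorem iff {R S : (Fin m → ℕ) → Prop} (h : ADef O m R) (h' : ADef O m S) :
    ADef O m fun v => (R v ↔ S v) :=
  ((h.imp h').and (h'.imp h)).of_iff fun v => by tauto

theorem ex {R : (Fin (m + 1) → ℕ) → Prop} (h : ADef O (m + 1) R) :
    ADef O m fun v => ∃ n : ℕ, R (Fin.cons n v) :=
  h.neg.all.neg.of_iff fun v => by simp

theorem subst {R : (Fin m → ℕ) → Prop} (h : ADef O m R) :
    ∀ {k : ℕ} (ρ : Fin m → Fin k), ADef O k fun v => R fun i => v (ρ i) := by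
  induction h with
  | add i j l => exact fun ρ => .add _ _ _
  | mul i j l => exact fun ρ => .mul _ _ _
  | orc i => exact fun ρ => .orc _
  | neg _ ih => exact fun ρ => (ih ρ).neg
  | and _ _ ih ih' => exact fun ρ => (ih ρ).and (ih' ρ)
  | @all m R _ ih =>
    intro k ρ
    have h1 := (ih (k := k + 1) (Fin.cons 0 fun i => (ρ i).succ)).all
    refine h1.of_iff fun v => forall_congr' fun n => ?_
    have : (fun i : Fin (m + 1) => (Fin.cons n v : Fin (k + 1) → ℕ)
        ((Fin.cons 0 fun i => (ρ i).succ : Fin (m + 1) → Fin (k + 1)) i)) =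
        Fin.cons n fun i => v (ρ i) := by
      funext i
      refine Fin.cases ?_ (fun i => ?_) i <;> simp
    rw [this]

/-- a unary predicate, applied to a variable -/
theorem un {P : ℕ → Prop} (h : ADef O 1 fun v => P (v 0)) (i : Fin m) :
    ADef O m fun v => P (v i) := h.subst fun _ => i

/-- a binary predicate, applied to variables -/
theorem bin {P : ℕ → ℕ → Prop} (h : ADef O 2 fun v => P (v 0) (v 1)) (i j : Fin m) :
    ADef O m fun v => P (v i) (v j) := h.subst ![i, j]

/-- a ternary predicate, applied to variables -/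
theorem ter {P : ℕ → ℕ → ℕ → Prop} (h : ADef O 3 fun v => P (v 0) (v 1) (v 2))
    (i j l : Fin m) : ADef O m fun v => P (v i) (v j) (v l) := h.subst ![i, j, l]

/-- change of the oracle -/
theorem trans {O' : ℕ → Bool} {R : (Fin m → ℕ) → Prop} (h : ADef O m R) (hO : ArithLe O O') :
    ADef O' m R := by
  induction h with
  | add i j l => exact .add _ _ _
  | mul i j l => exact .mul _ _ _
  | orc i => exact un (P := fun n => O n = true) hO i
  | neg _ ih => exact ih.neg
  | and _ _ ih ih' => exact ih.and ih'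
  | all _ ih => exact ih.all

theorem tt : ADef O m fun _ => True := by
  have h : ADef O m fun _ => ∃ n : ℕ, n + n = n := (ADef.add (m := m + 1) 0 0 0).ex
  exact h.of_iff fun v => ⟨fun _ => trivial, fun _ => ⟨0, rfl⟩⟩

theorem const (p : Prop) : ADef O m fun _ => p := by
  by_cases hp : p
  · exact tt.of_iff fun _ => by simp [hp]
  · exact tt.neg.of_iff fun _ => by simp [hp]

theorem le (i j : Fin m) : ADef O m fun v => v i ≤ v j := by
  have h : ADef O m fun v => ∃ n : ℕ, v i + n = v j :=
    (ADef.add (m := m + 1) i.succ 0 j.succ).ex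
  exact h.of_iff fun v => ⟨fun ⟨n, hn⟩ => by omega, fun h => ⟨v j - v i, by omega⟩⟩

theorem eq (i j : Fin m) : ADef O m fun v => v i = v j :=
  ((le i j).and (le j i)).of_iff fun v => by omega

theorem lt (i j : Fin m) : ADef O m fun v => v i < v j :=
  (le j i).neg.of_iff fun v => by omega

theorem isZero (i : Fin m) : ADef O m fun v => v i = 0 :=
  (ADef.add i i i).of_iff fun v => by omega

theorem isOne (i : Fin m) : ADef O m fun v => v i = 1 :=
  ((ADef.mul i i i).and (isZero i).neg).of_iff fun v => by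
    constructor
    · rintro ⟨h1, h2⟩
      exact (Nat.mul_eq_left h2).1 h1
    · rintro h
      rw [h]
      exact ⟨rfl, one_ne_zero⟩

/-- addition, as a function -/
theorem sum3 (i j l s : Fin m) : ADef O m fun v => v i + v j + v l = v s := by
  have h : ADef O m fun v => ∃ n : ℕ, v i + v j = n ∧ n + v l = v s :=
    ((ADef.add (m := m + 1) i.succ j.succ 0).and (ADef.add 0 l.succ s.succ)).ex
  exact h.of_iff fun v => by simp

/-- the graph of the pairing function -/
theorem pair (i j l : Fin m) : ADef O m fun v => Nat.pair (v i) (v j) = v l := by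
  have h1 : ADef O m fun v => v i < v j ∧ ∃ n : ℕ, v j * v j = n ∧ n + v i = v l :=
    (lt i j).and ((ADef.mul (m := m + 1) j.succ j.succ 0).and (ADef.add 0 i.succ l.succ)).ex
  have h2 : ADef O m fun v => ¬ v i < v j ∧ ∃ n : ℕ, v i * v i = n ∧ n + v i + v j = v l :=
    (lt i j).neg.and
      ((ADef.mul (m := m + 1) i.succ i.succ 0).and (sum3 0 i.succ j.succ l.succ)).ex
  refine (h1.or h2).of_iff fun v => ?_
  unfold Nat.pair
  split_ifs with h
  · simp [h]
  · simp [h]

/-- substitution of a function with definable graph -/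
theorem comp {P : ℕ → Prop} (h : ADef O 1 fun v => P (v 0)) {f : (Fin m → ℕ) → ℕ}
    (hf : ADef O (m + 1) fun v => f (fun i => v i.succ) = v 0) : ADef O m fun v => P (f v) := by
  have h1 : ADef O m fun v => ∃ n : ℕ, f v = n ∧ P n := by
    refine (hf.and (h.un 0)).ex.of_iff fun v => exists_congr fun n => ?_
    simp
  exact h1.of_iff fun v => by simp

end ADef

/-! ### Arithmetical reducibility -/

theorem ArithLe.refl (x : ℕ → Bool) : ArithLe x x := ADef.orc 0

theorem ArithLe.trans {x y z : ℕ → Bool} (h : ArithLe x y) (h' : ArithLe y z) : ArithLe x z :=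
  ADef.trans h h'

theorem ArithEq.symm {x y : ℕ → Bool} (h : ArithEq x y) : ArithEq y x := ⟨h.2, h.1⟩

/-- the join of two points -/
def join (x y : ℕ → Bool) (n : ℕ) : Bool := if n % 2 = 0 then x (n / 2) else y (n / 2)

@[simp] theorem join_even (x y : ℕ → Bool) (n : ℕ) : join x y (2 * n) = x n := by
  unfold join
  rw [if_pos (by omega)]
  congr 1
  omega

@[simp] theorem join_odd (x y : ℕ → Bool) (n : ℕ) : join x y (2 * n + 1) = y n := by
  unfold join
  rw [if_neg (by omega)]
  congr 1
  omega

theorem le_join_left (x y : ℕ → Bool) : ArithLe x (join x y) := by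
  have h : ADef (join x y) 1 fun v => join x y (2 * v 0) = true := by
    refine ADef.comp (P := fun n => join x y n = true) (ADef.orc 0) ?_
    exact (ADef.add (m := 2) 1 1 0).of_iff fun v => by
      change v 1 + v 1 = v 0 ↔ 2 * v 1 = v 0
      omega
  exact h.of_iff fun v => by rw [join_even]

theorem le_join_right (x y : ℕ → Bool) : ArithLe y (join x y) := by
  have h : ADef (join x y) 1 fun v => join x y (2 * v 0 + 1) = true := by
    refine ADef.comp (P := fun n => join x y n = true) (ADef.orc 0) ?_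
    have h1 : ADef (join x y) 2 fun v => ∃ e : ℕ, e = 1 ∧ v 1 + v 1 + e = v 0 :=
      ((ADef.isOne (m := 3) 0).and (ADef.sum3 2 2 0 1)).ex
    exact h1.of_iff fun v => by
      change _ ↔ 2 * v 1 + 1 = v 0
      constructor
      · rintro ⟨e, rfl, h⟩
        omega
      · intro h
        exact ⟨1, rfl, by omega⟩
  exact h.of_iff fun v => by rw [join_odd]

theorem join_le {x y z : ℕ → Bool} (hx : ArithLe x z) (hy : ArithLe y z) :
    ArithLe (join x y) z := by
  have h1 : ADef z 1 fun v => ∃ t : ℕ, t + t = v 0 ∧ x t = true :=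
    ((ADef.add (m := 2) 0 0 1).and (ADef.un (P := fun n => x n = true) hx 0)).ex
  have h2 : ADef z 1 fun v => ∃ t : ℕ, (∃ e : ℕ, e = 1 ∧ t + t + e = v 0) ∧ y t = true :=
    ((((ADef.isOne (m := 3) 0).and (ADef.sum3 1 1 0 2)).ex).and (ADef.un (P := fun n => y n = true) hy 0)).ex
  refine (h1.or h2).of_iff fun v => ?_
  constructor
  · rintro (⟨t, ht, h⟩ | ⟨t, ⟨e, rfl, ht⟩, h⟩)
    · rw [← ht, ← two_mul, join_even]
      exact h
    · rw [← ht, ← two_mul, join_odd]
      exact h
  · intro h
    rcases Nat.even_or_odd' (v 0) with ⟨t, ht | ht⟩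
    · left
      rw [ht, join_even] at h
      exact ⟨t, by omega, h⟩
    · right
      rw [ht, join_odd] at h
      exact ⟨t, ⟨1, rfl, by omega⟩, h⟩

theorem ArithLe.of_join_left {x y z : ℕ → Bool} (h : ArithLe (join x y) z) : ArithLe x z :=
  (le_join_left x y).trans h

theorem ArithLe.of_join_right {x y z : ℕ → Bool} (h : ArithLe (join x y) z) : ArithLe y z :=
  (le_join_right x y).trans h

/-- the graph of a function, as a point of the Cantor space -/
noncomputable def gr (φ : ℕ → ℕ) (n : ℕ) : Bool := decide (φ n.unpair.1 = n.unpair.2)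

theorem gr_pair (φ : ℕ → ℕ) (k v : ℕ) : gr φ (Nat.pair k v) = true ↔ φ k = v := by
  unfold gr
  rw [Nat.unpair_pair, decide_eq_true_iff]

theorem ADef.graph {O : ℕ → Bool} {φ : ℕ → ℕ} (h : ArithLe (gr φ) O) {m : ℕ} (i j : Fin m) :
    ADef O m fun v => φ (v i) = v j := by
  have h1 : ADef O m fun v => gr φ (Nat.pair (v i) (v j)) = true :=
    ADef.comp (P := fun n => gr φ n = true) h (ADef.pair (m := m + 1) i.succ j.succ 0)
  exact h1.of_iff fun v => gr_pair _ _ _

end Pool.Agent.Helper64.E0
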