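import Pool.Agent.Helper64.E0.Approx

/-!
# Coding points into closed sets of positive measure
-/

open MeasureTheory Measure Filter Topology
open scoped ENNReal

namespace Pool.Agent.Helper64.E0

/-- functions with finite rank graph -/
def BFun (γ : Prop) {ι κ : Type} (F : (ℕ → Bool) → (ℕ → Bool) → ι → κ) : Prop :=
  BF γ fun x y (p : ι × κ) => F x y p.1 = p.2

theorem BF.subst {γ : Prop} {ι κ : Type} [Countable κ]
    {P : (ℕ → Bool) → (ℕ → Bool) → ι × κ → Prop}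
    (hP : BF γ P) {g : (ℕ → Bool) → (ℕ → Bool) → ι → κ} (hg : BFun γ g) :
    BF γ fun x y i => P x y (i, g x y i) :=
  (BF.ex' (P := fun x y i k => g x y i = k ∧ P x y (i, k)) (BF.and hg hP)).of_iff
    fun x y i => ⟨fun ⟨k, h1, h2⟩ => by rw [h1]; exact h2, fun h => ⟨_, rfl, h⟩⟩

theorem BFun.comp {γ : Prop} {ι κ η : Type} [Countable κ] {F : (ℕ → Bool) → (ℕ → Bool) → ι × κ → η}
    (hF : BFun γ F) {g : (ℕ → Bool) → (ℕ → Bool) → ι → κ} (hg : BFun γ g) :
    BFun γ fun x y i => F x y (i, g x y i) := by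
  unfold BFun
  have h1 : BF γ fun x y (p : (ι × η) × κ) => F x y (p.1.1, p.2) = p.1.2 :=
    BF.sub (P := fun x y (q : (ι × κ) × η) => F x y q.1 = q.2) hF
      fun p : (ι × η) × κ => ((p.1.1, p.2), p.1.2)
  have h2 : BFun γ fun x y (p : ι × η) => g x y p.1 :=
    BF.sub (P := fun x y (q : ι × κ) => g x y q.1 = q.2) hg
      fun p : (ι × η) × κ => (p.1.1, p.2)
  exact BF.subst h1 h2

theorem BFun.sub {γ : Prop} {ι κ ι' : Type} {g : (ℕ → Bool) → (ℕ → Bool) → ι → κ} (hg : BFun γ g)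
    (φ : ι' → ι) : BFun γ fun x y i => g x y (φ i) :=
  BF.sub (P := fun x y (q : ι × κ) => g x y q.1 = q.2) hg fun p : ι' × κ => (φ p.1, p.2)

/-- uniformization by the least witness -/
theorem BF.unif {γ : Prop} {ι κ : Type} [Countable κ] [Nonempty κ] {Q : (ℕ → Bool) → ι → κ → Prop}
    (hQ : BF γ fun x _ (p : ι × κ) => Q x p.1 p.2) :
    ∃ g : (ℕ → Bool) → ι → κ, (BFun γ fun x _ => g x) ∧ ∀ x i, (∃ k, Q x i k) → Q x i (g x i) := by
  classical
  obtain ⟨enc, henc⟩ := Countable.exists_injective_nat κ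
  set R : (ℕ → Bool) → ι → κ → Prop := fun x i k =>
    Q x i k ∧ ∀ k', enc k' < enc k → ¬ Q x i k' with hR
  have hRB : BF γ fun x _ (p : ι × κ) => R x p.1 p.2 :=
    hQ.and (BF.all' (BF.imp (BF.const fun p : (ι × κ) × κ => enc p.2 < enc p.1.2)
      (BF.neg (hQ.sub fun p : (ι × κ) × κ => (p.1.1, p.2)))))
  have hRu : ∀ x i k k', R x i k → R x i k' → k = k' := by
    intro x i k k' h h'
    apply henc
    rcases lt_trichotomy (enc k) (enc k') with h1 | h1 | h1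
    · exact absurd h.1 (h'.2 k h1)
    · exact h1
    · exact absurd h'.1 (h.2 k' h1)
  have hRe : ∀ x i, (∃ k, Q x i k) → ∃ k, R x i k := by
    intro x i h
    have h1 : ∃ n, ∃ k, enc k = n ∧ Q x i k := by
      obtain ⟨k, hk⟩ := h
      exact ⟨enc k, k, rfl, hk⟩
    obtain ⟨k, hk, hq⟩ := Nat.find_spec h1
    refine ⟨k, hq, fun k' hk' hq' => ?_⟩
    exact Nat.find_min h1 (hk ▸ hk') ⟨k', rfl, hq'⟩
  set d : κ := Classical.arbitrary κ
  refine ⟨fun x i => if h : ∃ k, R x i k then h.choose else d, ?_, ?_⟩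
  · unfold BFun
    have h1 : BF γ fun x _ (p : ι × κ) => R x p.1 p.2 ∨ ((¬ ∃ k, R x p.1 k) ∧ p.2 = d) :=
      hRB.or ((BF.neg (BF.ex' (hRB.sub fun p : (ι × κ) × κ => (p.1.1, p.2)))).and
        (BF.const fun p : ι × κ => p.2 = d))
    refine h1.of_iff fun x y p => ?_
    beta_reduce
    by_cases h : ∃ k, R x p.1 k
    · rw [dif_pos h]
      constructor
      · rintro (h2 | h2)
        · exact hRu _ _ _ _ h.choose_spec h2
        · exact absurd h h2.1
      · intro h2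
        left
        rw [← h2]
        exact h.choose_spec
    · rw [dif_neg h]
      constructor
      · rintro (h2 | h2)
        · exact absurd ⟨_, h2⟩ h
        · exact h2.2.symm
      · intro h2
        exact Or.inr ⟨h, h2.symm⟩
  · intro x i h
    have h1 := hRe x i h
    beta_reduce
    rw [dif_pos h1]
    exact h1.choose_spec.1

/-- primitive recursion -/
theorem BFun.recur {γ : Prop} {ι κ : Type} [Countable κ] (g0 : κ)
    {G : (ℕ → Bool) → (ℕ → Bool) → (ι × ℕ) × κ → κ} (hG : BFun γ G)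
    {r : (ℕ → Bool) → (ℕ → Bool) → ι × ℕ → κ} (h0 : ∀ x y i, r x y (i, 0) = g0)
    (hs : ∀ x y i n, r x y (i, n + 1) = G x y ((i, n), r x y (i, n))) : BFun γ r := by
  unfold BFun
  have h1 : BF γ fun x y (p : (ι × ℕ) × κ) => ∃ l : List κ,
      (l.length = p.1.2 + 1 ∧ l[0]? = some g0 ∧ l[p.1.2]? = some p.2) ∧
      ∀ q : ℕ × κ × κ, (q.1 < p.1.2 ∧ l[q.1]? = some q.2.1 ∧ l[q.1 + 1]? = some q.2.2) →
        G x y ((p.1.1, q.1), q.2.1) = q.2.2 := by
    refine BF.ex' (BF.and (BF.const fun s : ((ι × ℕ) × κ) × List κ =>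
      s.2.length = s.1.1.2 + 1 ∧ s.2[0]? = some g0 ∧ s.2[s.1.1.2]? = some s.1.2) ?_)
    refine BF.all' (BF.imp (BF.const fun s : (((ι × ℕ) × κ) × List κ) × (ℕ × κ × κ) =>
      s.2.1 < s.1.1.1.2 ∧ s.1.2[s.2.1]? = some s.2.2.1 ∧ s.1.2[s.2.1 + 1]? = some s.2.2.2) ?_)
    exact BF.sub (P := fun x y (q : ((ι × ℕ) × κ) × κ) => G x y q.1 = q.2) hG
      fun s : (((ι × ℕ) × κ) × List κ) × (ℕ × κ × κ) => (((s.1.1.1.1, s.2.1), s.2.2.1), s.2.2.2)
  refine h1.of_iff fun x y p => ?_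
  obtain ⟨⟨i, n⟩, k⟩ := p
  simp only
  constructor
  · rintro ⟨l, ⟨hl, hl0, hln⟩, hstep⟩
    have h2 : ∀ m, m ≤ n → l[m]? = some (r x y (i, m)) := by
      intro m
      induction m with
      | zero =>
        intro _
        rw [hl0, h0]
      | succ m ih =>
        intro hm
        have h3 : m + 1 < l.length := by omega
        have h4 := hstep (m, r x y (i, m), l[m + 1]) ⟨by simp only; omega, ih (by omega),
          List.getElem?_eq_getElem h3⟩
        simp only at h4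
        rw [hs, h4]
        exact List.getElem?_eq_getElem h3
    have h5 := h2 n le_rfl
    rw [hln] at h5
    exact (Option.some.inj h5).symm
  · intro h
    refine ⟨(List.range (n + 1)).map fun m => r x y (i, m), ⟨by simp, ?_, ?_⟩, ?_⟩
    · simp [h0]
    · simp [h]
    · rintro ⟨m, a, b⟩ ⟨hm, ha, hb⟩
      simp only at hm ha hb ⊢
      have h3 : m < n + 1 := by omega
      have h4 : m + 1 < n + 1 := by omega
      simp only [List.getElem?_map, List.getElem?_range h3, List.getElem?_range h4,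
        Option.map_some, Option.some.injEq] at ha hb
      rw [← ha, ← hb, hs]

theorem BF.pre_eq {γ : Prop} {ι : Type} (φ : ι → ℕ × Finset ℕ) :
    BF γ fun _ y i => pre y (φ i).1 = (φ i).2 := by
  have h1 : BF γ fun _ y (q : ℕ × Finset ℕ) => ∀ j : ℕ, (j ∈ q.2 ↔ j < q.1 ∧ y j = true) :=
    BF.all' ((BF.const fun s : (ℕ × Finset ℕ) × ℕ => s.2 ∈ s.1.2).iff
      ((BF.const fun s : (ℕ × Finset ℕ) × ℕ => s.2 < s.1.1).and
        (BF.snd fun s : (ℕ × Finset ℕ) × ℕ => s.2)))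
  have h2 : BF γ fun _ y (q : ℕ × Finset ℕ) => pre y q.1 = q.2 := h1.of_iff fun x y q => by
    rw [Finset.ext_iff]
    refine forall_congr' fun j => ?_
    rw [mem_pre]
    exact ⟨fun h => h.symm, fun h => h.symm⟩
  exact h2.sub φ

theorem measure_cyl_le (n : ℕ) (S : Finset ℕ) : mu ℕ {y | pre y n = S} ≤ 2⁻¹ ^ n := by
  have h1 : {y : ℕ → Bool | pre y n = S} ⊆
      ((Finset.range n : Finset ℕ) : Set ℕ).pi fun i => {decide (i ∈ S)} := by
    intro y hy i hi
    have hi' : i < n := by simpa using hi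
    have h2 : i ∈ pre y n ↔ i ∈ S := by rw [show pre y n = S from hy]
    rw [mem_pre] at h2
    rw [Set.mem_singleton_iff]
    by_cases h3 : i ∈ S
    · rw [decide_eq_true h3]
      exact (h2.2 h3).2
    · rw [decide_eq_false h3]
      by_contra h4
      exact h3 (h2.1 ⟨hi', by simpa using h4⟩)
  refine (measure_mono h1).trans ?_
  unfold mu
  rw [Measure.infinitePi_pi _ fun _ _ => MeasurableSet.of_discrete]
  simp [coin_singleton]

section Code

variable {ι : Type} (v : (ℕ → Bool) → ι → ℕ → Finset ℕ → Prop)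

/-- nodes with positive measure -/
def T (x : ℕ → Bool) (i : ι) (σ : ℕ × Finset ℕ) : Prop :=
  0 < mu ℕ {y | pre y σ.1 = σ.2 ∧ ¬ y ∈ Op (v x i)}

/-- splittings -/
def Q (x : ℕ → Bool) (p : ι × (ℕ × Finset ℕ)) (s : ℕ × Finset ℕ × Finset ℕ) : Prop :=
  (p.2.1 < s.1 ∧ s.2.1 ≠ s.2.2 ∧ s.2.1 ∩ Finset.range p.2.1 = p.2.2 ∧
    s.2.2 ∩ Finset.range p.2.1 = p.2.2) ∧ T v x p.1 (s.1, s.2.1) ∧ T v x p.1 (s.1, s.2.2)

variable {v}

theorem T.exists {x : ℕ → Bool} {i : ι} {σ : ℕ × Finset ℕ} (h : T v x i σ) :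
    ∃ y, pre y σ.1 = σ.2 ∧ ¬ y ∈ Op (v x i) := by
  obtain ⟨y, hy⟩ := nonempty_of_measure_ne_zero (ne_of_gt h)
  exact ⟨y, hy⟩

theorem pre_inter (y : ℕ → Bool) {n m : ℕ} (h : n ≤ m) : pre y m ∩ Finset.range n = pre y n := by
  ext j
  rw [Finset.mem_inter, mem_pre, mem_pre, Finset.mem_range]
  constructor
  · rintro ⟨⟨_, h1⟩, h2⟩
    exact ⟨h2, h1⟩
  · rintro ⟨h1, h2⟩
    exact ⟨⟨by omega, h2⟩, h1⟩

theorem T.split {x : ℕ → Bool} {i : ι} {σ : ℕ × Finset ℕ} (h : T v x i σ) :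
    ∃ s, Q v x (i, σ) s := by
  set A : Set (ℕ → Bool) := {y | pre y σ.1 = σ.2 ∧ ¬ y ∈ Op (v x i)} with hA
  have hpos : 0 < mu ℕ A := h
  obtain ⟨m, hm⟩ := exists_pow hpos
  rw [zero_add] at hm
  set n := max m (σ.1 + 1) with hn
  have hn1 : σ.1 < n := lt_of_lt_of_le (Nat.lt_succ_self _) (le_max_right _ _)
  have hlt : (2⁻¹ : ℝ≥0∞) ^ n < mu ℕ A :=
    lt_of_le_of_lt (pow_le_pow_right_of_le_one' (by norm_num) (le_max_left _ _)) hm
  -- a set of positive measure meets some cylinder in positive measure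
  have key : ∀ B : Set (ℕ → Bool), 0 < mu ℕ B → ∃ S, 0 < mu ℕ (B ∩ {y | pre y n = S}) := by
    intro B hB
    by_contra hcon
    push Not at hcon
    have h1 : B ⊆ ⋃ S : Finset ℕ, B ∩ {y | pre y n = S} := by
      intro y hy
      rw [Set.mem_iUnion]
      exact ⟨pre y n, hy, rfl⟩
    have h2 : mu ℕ (⋃ S : Finset ℕ, B ∩ {y | pre y n = S}) = 0 :=
      measure_iUnion_null fun S => le_antisymm (hcon S) zero_le
    exact absurd (measure_mono_null h1 h2) (ne_of_gt hB)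
  have hT : ∀ S, 0 < mu ℕ (A ∩ {y | pre y n = S}) →
      S ∩ Finset.range σ.1 = σ.2 ∧ T v x i (n, S) := by
    intro S hS
    constructor
    · obtain ⟨y, hy⟩ := nonempty_of_measure_ne_zero (ne_of_gt hS)
      rw [← show pre y n = S from hy.2, pre_inter y hn1.le]
      exact hy.1.1
    · exact lt_of_lt_of_le hS (measure_mono fun y hy => ⟨hy.2, hy.1.2⟩)
  obtain ⟨S1, hS1⟩ := key A hpos
  have h2 : 0 < mu ℕ (A \ {y | pre y n = S1}) := by
    by_contra hcon
    have h3 : mu ℕ (A \ {y | pre y n = S1}) = 0 := le_antisymm (not_lt.1 hcon) zero_le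
    have h4 : mu ℕ A ≤ mu ℕ {y | pre y n = S1} + mu ℕ (A \ {y | pre y n = S1}) := by
      refine le_trans (measure_mono ?_) (measure_union_le _ _)
      intro y hy
      by_cases h5 : pre y n = S1
      · exact Or.inl h5
      · exact Or.inr ⟨hy, h5⟩
    rw [h3, add_zero] at h4
    exact absurd (lt_of_lt_of_le hlt (h4.trans (measure_cyl_le n S1))) (lt_irrefl _)
  obtain ⟨S2, hS2⟩ := key _ h2
  have hS2' : 0 < mu ℕ (A ∩ {y | pre y n = S2}) :=
    lt_of_lt_of_le hS2 (measure_mono fun y hy => ⟨hy.1.1, hy.2⟩)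
  have hne : S1 ≠ S2 := by
    rintro rfl
    obtain ⟨y, hy⟩ := nonempty_of_measure_ne_zero (ne_of_gt hS2)
    exact hy.1.2 hy.2
  exact ⟨(n, S1, S2), ⟨hn1, hne, (hT S1 hS1).1, (hT S2 hS2').1⟩, (hT S1 hS1).2, (hT S2 hS2').2⟩

theorem T.bf {γ : Prop} (hv : BF γ fun x _ (q : ι × ℕ × Finset ℕ) => v x q.1 q.2.1 q.2.2) :
    BF γ fun x _ (p : ι × (ℕ × Finset ℕ)) => T v x p.1 p.2 := by
  refine BF.lt_measure (P := fun x y (p : ι × (ℕ × Finset ℕ)) =>
    pre y p.2.1 = p.2.2 ∧ ¬ y ∈ Op (v x p.1)) (BF.and (BF.pre_eq fun p : ι × (ℕ × Finset ℕ) => p.2) (BF.neg ?_))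
    fun _ => 0
  refine BF.ex' (P := fun x y (p : ι × (ℕ × Finset ℕ)) n => v x p.1 n (pre y n)) ?_
  have h1 : BF γ fun x y (p : (ι × (ℕ × Finset ℕ)) × ℕ) => ∃ S : Finset ℕ,
      pre y p.2 = S ∧ v x p.1.1 p.2 S :=
    BF.ex' ((BF.pre_eq fun q : ((ι × (ℕ × Finset ℕ)) × ℕ) × Finset ℕ => (q.1.2, q.2)).and
      (hv.sub fun q : ((ι × (ℕ × Finset ℕ)) × ℕ) × Finset ℕ => (q.1.1.1, q.1.2, q.2)))
  exact h1.of_iff fun x y p => by simp

theorem Q.bf {γ : Prop} (hv : BF γ fun x _ (q : ι × ℕ × Finset ℕ) => v x q.1 q.2.1 q.2.2) :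
    BF γ fun x _ (p : (ι × (ℕ × Finset ℕ)) × (ℕ × Finset ℕ × Finset ℕ)) => Q v x p.1 p.2 := by
  refine (BF.const fun p : (ι × (ℕ × Finset ℕ)) × (ℕ × Finset ℕ × Finset ℕ) =>
    p.1.2.1 < p.2.1 ∧ p.2.2.1 ≠ p.2.2.2 ∧ p.2.2.1 ∩ Finset.range p.1.2.1 = p.1.2.2 ∧
    p.2.2.2 ∩ Finset.range p.1.2.1 = p.1.2.2).and (BF.and ?_ ?_)
  · exact (T.bf hv).sub fun p : (ι × (ℕ × Finset ℕ)) × (ℕ × Finset ℕ × Finset ℕ) =>
      (p.1.1, (p.2.1, p.2.2.1))
  · exact (T.bf hv).sub fun p : (ι × (ℕ × Finset ℕ)) × (ℕ × Finset ℕ × Finset ℕ) =>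
      (p.1.1, (p.2.1, p.2.2.2))

theorem T.subset {x : ℕ → Bool} {i : ι} {σ : ℕ × Finset ℕ} (h : T v x i σ) {j : ℕ}
    (hj : j ∈ σ.2) : j < σ.1 := by
  obtain ⟨y, hy, _⟩ := h.exists
  rw [← hy] at hj
  exact (mem_pre.1 hj).1

/-- coding -/
theorem code {γ : Prop} (hv : BF γ fun x _ (q : ι × ℕ × Finset ℕ) => v x q.1 q.2.1 q.2.2)
    (hmon : ∀ x i, Mon (v x i)) : ∃ E D : (ℕ → Bool) → (ℕ → Bool) → ι → (ℕ → Bool),
    (BF γ fun x y (p : ι × ℕ) => E x y p.1 p.2 = true) ∧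
    (BF γ fun x y (p : ι × ℕ) => D x y p.1 p.2 = true) ∧
    ∀ x i, 0 < mu ℕ {y | ¬ y ∈ Op (v x i)} → ∀ w, ¬ E x w i ∈ Op (v x i) ∧
      D x (E x w i) i = w := by
  classical
  obtain ⟨sp, hspB, hsp⟩ := BF.unif (Q := Q v) (Q.bf hv)
  -- the step
  set st : (ℕ × Finset ℕ × Finset ℕ) → Prop → ℕ × Finset ℕ := fun s c =>
    (s.1, if c then s.2.2 else s.2.1) with hst
  have hrec : ∀ (G : (ℕ → Bool) → (ℕ → Bool) → (ι × ℕ) × (ℕ × Finset ℕ) → ℕ × Finset ℕ),
      ∃ r : (ℕ → Bool) → (ℕ → Bool) → ι × ℕ → ℕ × Finset ℕ,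
        (∀ x y i, r x y (i, 0) = (0, ∅)) ∧
        ∀ x y i n, r x y (i, n + 1) = G x y ((i, n), r x y (i, n)) := fun G =>
    ⟨fun x y p => Nat.rec (0, ∅) (fun n σ => G x y ((p.1, n), σ)) p.2, fun _ _ _ => rfl,
      fun _ _ _ _ => rfl⟩
  obtain ⟨r, hr0, hrs⟩ := hrec fun x w p => st (sp x (p.1.1, p.2)) (w p.1.2 = true)
  obtain ⟨r', hr0', hrs'⟩ := hrec fun x y p => st (sp x (p.1.1, p.2))
    (pre y (sp x (p.1.1, p.2)).1 = (sp x (p.1.1, p.2)).2.2)
  have hspB' : BFun γ fun x (_ : ℕ → Bool) (p : (ι × ℕ) × (ℕ × Finset ℕ)) => sp x (p.1.1, p.2) :=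
    hspB.sub fun p : (ι × ℕ) × (ℕ × Finset ℕ) => (p.1.1, p.2)
  have hstB : ∀ C : (ℕ → Bool) → (ℕ → Bool) →
      ((ι × ℕ) × (ℕ × Finset ℕ)) × (ℕ × Finset ℕ × Finset ℕ) → Prop, BF γ C →
      BFun γ fun x y (p : (ι × ℕ) × (ℕ × Finset ℕ)) =>
        st (sp x (p.1.1, p.2)) (C x y (p, sp x (p.1.1, p.2))) := by
    intro C hC
    refine BFun.comp (F := fun x y (q : ((ι × ℕ) × (ℕ × Finset ℕ)) ×
      (ℕ × Finset ℕ × Finset ℕ)) => st q.2 (C x y q)) ?_ hspB'
    unfold BFun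
    have h1 : BF γ fun x y (p : (((ι × ℕ) × (ℕ × Finset ℕ)) ×
        (ℕ × Finset ℕ × Finset ℕ)) × (ℕ × Finset ℕ)) =>
        (C x y p.1 ∧ (p.1.2.1, p.1.2.2.2) = p.2) ∨ (¬ C x y p.1 ∧ (p.1.2.1, p.1.2.2.1) = p.2) :=
      ((hC.sub fun p : (((ι × ℕ) × (ℕ × Finset ℕ)) ×
        (ℕ × Finset ℕ × Finset ℕ)) × (ℕ × Finset ℕ) => p.1).and
        (BF.const fun p : (((ι × ℕ) × (ℕ × Finset ℕ)) ×
        (ℕ × Finset ℕ × Finset ℕ)) × (ℕ × Finset ℕ) => (p.1.2.1, p.1.2.2.2) = p.2)).or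
      ((BF.neg (hC.sub fun p : (((ι × ℕ) × (ℕ × Finset ℕ)) ×
        (ℕ × Finset ℕ × Finset ℕ)) × (ℕ × Finset ℕ) => p.1)).and
        (BF.const fun p : (((ι × ℕ) × (ℕ × Finset ℕ)) ×
        (ℕ × Finset ℕ × Finset ℕ)) × (ℕ × Finset ℕ) => (p.1.2.1, p.1.2.2.1) = p.2))
    refine h1.of_iff fun x y p => ?_
    simp only [hst]
    by_cases h : C x y p.1
    · simp [h]
    · simp [h]
  have hrB : BFun γ r := by
    refine BFun.recur (0, ∅) (hstB (fun _ w q => w q.1.1.2 = true)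
      (BF.snd fun q : ((ι × ℕ) × (ℕ × Finset ℕ)) × (ℕ × Finset ℕ × Finset ℕ) => q.1.1.2))
      hr0 fun x y i n => ?_
    rw [hrs]
  have hrB' : BFun γ r' := by
    refine BFun.recur (0, ∅) (hstB (fun _ y q => pre y q.2.1 = q.2.2.2)
      (BF.pre_eq fun q : ((ι × ℕ) × (ℕ × Finset ℕ)) × (ℕ × Finset ℕ × Finset ℕ) =>
        (q.2.1, q.2.2.2))) hr0' fun x y i n => ?_
    rw [hrs']
  refine ⟨fun x w i m => decide (∃ n, m ∈ (r x w (i, n)).2), fun x y i n =>
    decide (pre y (sp x (i, r' x y (i, n))).1 = (sp x (i, r' x y (i, n))).2.2), ?_, ?_, ?_⟩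
  · have h1 : BF γ fun x w (p : ι × ℕ) => ∃ n : ℕ, p.2 ∈ (r x w (p.1, n)).2 := by
      refine BF.ex' ?_
      have h2 : BFun γ fun x w (p : (ι × ℕ) × ℕ) => r x w (p.1.1, p.2) :=
        hrB.sub fun p : (ι × ℕ) × ℕ => (p.1.1, p.2)
      exact BF.subst (P := fun _ _ (q : ((ι × ℕ) × ℕ) × (ℕ × Finset ℕ)) => q.1.1.2 ∈ q.2.2)
        (BF.const fun q : ((ι × ℕ) × ℕ) × (ℕ × Finset ℕ) => q.1.1.2 ∈ q.2.2) h2
    exact h1.of_iff fun x y p => by simp
  · have h2 : BFun γ fun x y (p : ι × ℕ) => sp x (p.1, r' x y p) :=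
      BFun.comp (F := fun x _ (q : (ι × ℕ) × (ℕ × Finset ℕ)) => sp x (q.1.1, q.2)) hspB' hrB'
    have h3 : BF γ fun x y (p : ι × ℕ) =>
        pre y (sp x (p.1, r' x y p)).1 = (sp x (p.1, r' x y p)).2.2 :=
      BF.subst (P := fun _ y (q : (ι × ℕ) × (ℕ × Finset ℕ × Finset ℕ)) =>
        pre y q.2.1 = q.2.2.2) (BF.pre_eq fun q : (ι × ℕ) × (ℕ × Finset ℕ × Finset ℕ) =>
          (q.2.1, q.2.2.2)) h2
    exact h3.of_iff fun x y p => by simp
  · intro x i hpos w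
    set σ : ℕ → ℕ × Finset ℕ := fun n => r x w (i, n) with hσ
    have hσ0 : σ 0 = (0, ∅) := hr0 x w i
    have hσs : ∀ n, σ (n + 1) = st (sp x (i, σ n)) (w n = true) := fun n => hrs x w i n
    have hT : ∀ n, T v x i (σ n) := by
      intro n
      induction n with
      | zero =>
        rw [hσ0]
        refine lt_of_lt_of_le hpos (measure_mono fun y hy => ⟨?_, hy⟩)
        simp [pre]
      | succ n ih =>
        rw [hσs]
        have h1 := hsp x (i, σ n) ih.split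
        simp only [hst]
        by_cases h2 : w n = true
        · rw [if_pos h2]
          exact h1.2.2
        · rw [if_neg h2]
          exact h1.2.1
    have hQ : ∀ n, Q v x (i, σ n) (sp x (i, σ n)) := fun n => hsp x (i, σ n) (hT n).split
    have hstep : ∀ n, (σ n).1 < (σ (n + 1)).1 ∧
        (σ (n + 1)).2 ∩ Finset.range (σ n).1 = (σ n).2 := by
      intro n
      rw [hσs]
      have h1 := (hQ n).1
      simp only [hst]
      refine ⟨h1.1, ?_⟩
      by_cases h2 : w n = true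
      · rw [if_pos h2]
        exact h1.2.2.2
      · rw [if_neg h2]
        exact h1.2.2.1
    have hmono : ∀ n m, n ≤ m → (σ n).1 ≤ (σ m).1 ∧
        (σ m).2 ∩ Finset.range (σ n).1 = (σ n).2 := by
      intro n m hnm
      induction hnm with
      | refl =>
        refine ⟨le_rfl, ?_⟩
        rw [Finset.inter_eq_left]
        intro j hj
        exact Finset.mem_range.2 ((hT n).subset hj)
      | @step m _ ih =>
        refine ⟨ih.1.trans (hstep m).1.le, ?_⟩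
        rw [← ih.2, ← (hstep m).2]
        ext j
        simp only [Finset.mem_inter, Finset.mem_range]
        constructor
        · rintro ⟨h1, h2⟩
          exact ⟨⟨h1, by omega⟩, h2⟩
        · rintro ⟨⟨h1, _⟩, h2⟩
          exact ⟨h1, h2⟩
    have hlen : ∀ n, n ≤ (σ n).1 := by
      intro n
      induction n with
      | zero => exact Nat.zero_le _
      | succ n ih => have := (hstep n).1; omega
    set E : ℕ → Bool := fun m => decide (∃ n, m ∈ (σ n).2) with hE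
    have hpre : ∀ n, pre E (σ n).1 = (σ n).2 := by
      intro n
      ext j
      rw [mem_pre]
      simp only [hE, decide_eq_true_eq]
      constructor
      · rintro ⟨h1, m, h2⟩
        rcases le_total n m with h3 | h3
        · rw [← (hmono n m h3).2]
          exact Finset.mem_inter.2 ⟨h2, Finset.mem_range.2 h1⟩
        · rw [← (hmono m n h3).2] at h2
          exact (Finset.mem_inter.1 h2).1
      · intro h1
        exact ⟨(hT n).subset h1, n, h1⟩
    constructor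
    · rintro ⟨n, hn⟩
      have h1 : v x i (σ n).1 (pre E (σ n).1) := (hmon x i).le (hlen n) hn
      rw [hpre] at h1
      obtain ⟨y, hy, hy'⟩ := (hT n).exists
      exact hy' ⟨(σ n).1, by rw [hy]; exact h1⟩
    · have hr' : ∀ n, r' x E (i, n) = σ n ∧
          (pre E (sp x (i, σ n)).1 = (sp x (i, σ n)).2.2 ↔ w n = true) := by
        have h1 : ∀ n, (pre E (sp x (i, σ n)).1 = (sp x (i, σ n)).2.2 ↔ w n = true) := by
          intro n
          have h2 := hpre (n + 1)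
          rw [hσs] at h2
          simp only [hst] at h2
          by_cases h3 : w n = true
          · rw [if_pos h3] at h2
            exact ⟨fun _ => h3, fun _ => h2⟩
          · rw [if_neg h3] at h2
            refine ⟨fun h4 => ?_, fun h4 => absurd h4 h3⟩
            exact absurd (h2.symm.trans h4) (hQ n).1.2.1
        intro n
        refine ⟨?_, h1 n⟩
        induction n with
        | zero => rw [hr0', hσ0]
        | succ n ih =>
          rw [hrs', ih, hσs]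
          simp only
          congr 1
          exact propext (h1 n)
      funext n
      have h1 := hr' n
      change decide (pre E (sp x (i, r' x E (i, n))).1 = (sp x (i, r' x E (i, n))).2.2) = w n
      rw [h1.1]
      by_cases h2 : w n = true
      · rw [h2]
        exact decide_eq_true (h1.2.2 h2)
      · rw [Bool.not_eq_true] at h2
        rw [h2]
        refine decide_eq_false fun h3 => ?_
        have := h1.2.1 h3
        rw [h2] at this
        exact absurd this (by simp)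

end Code

end Pool.Agent.Helper64.E0
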