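import Mathlib

/-!
# Arithmetical reducibility, finite Borel rank
-/

namespace Pool.Agent.Helper64.E0

/-- `ADef O m R`: the relation `R` between `m` natural numbers is first-order definable in the
structure `(ℕ, +, ·, O)`, where `O` is a set of natural numbers. The rules are the rules for the
formation of formulas with `m` free variables: atomic formulas `x + y = z`, `x · y = z` and
`O(x)`, negation, conjunction and universal quantification. -/
inductive ADef (O : ℕ → Bool) : (m : ℕ) → ((Fin m → ℕ) → Prop) → Prop
  | add {m : ℕ} (i j k : Fin m) : ADef O m fun v => v i + v j = v k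
  | mul {m : ℕ} (i j k : Fin m) : ADef O m fun v => v i * v j = v k
  | orc {m : ℕ} (i : Fin m) : ADef O m fun v => O (v i) = true
  | neg {m : ℕ} {R : (Fin m → ℕ) → Prop} (h : ADef O m R) : ADef O m fun v => ¬ R v
  | and {m : ℕ} {R S : (Fin m → ℕ) → Prop} (h : ADef O m R) (h' : ADef O m S) :
      ADef O m fun v => R v ∧ S v
  | all {m : ℕ} {R : (Fin (m + 1) → ℕ) → Prop} (h : ADef O (m + 1) R) :
      ADef O m fun v => ∀ n : ℕ, R (Fin.cons n v)

/-- `x` is arithmetical in `y`: the set `x` is first-order definable in `(ℕ, +, ·, y)`. -/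
def ArithLe (x y : ℕ → Bool) : Prop := ADef y 1 fun v => x (v 0) = true

/-- `x` and `y` are arithmetically equivalent. -/
def ArithEq (x y : ℕ → Bool) : Prop := ArithLe x y ∧ ArithLe y x

/-- Turing equivalence of points of the Cantor space. -/
def TEq (x y : ℕ → Bool) : Prop :=
  TuringEquivalent (PFun.lift fun n => (x n).toNat) (PFun.lift fun n => (y n).toNat)

/-- `Sig n A`: the set `A` of points of the Cantor space belongs to the Borel class
`Σ⁰_(n + 1)`: it is open if `n = 0`, and a countable union of complements of sets of the previous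
class otherwise. -/
def Sig : ℕ → Set (ℕ → Bool) → Prop
  | 0, A => IsOpen A
  | n + 1, A => ∃ B : ℕ → Set (ℕ → Bool), (∀ i, Sig n (B i)) ∧ A = ⋃ i, (B i)ᶜ

/-- `f` has finite Borel rank: for some `n` the preimages of all open sets are in the Borel class
`Σ⁰_n`. -/
def FinRank (f : (ℕ → Bool) → (ℕ → Bool)) : Prop :=
  ∃ n, ∀ U : Set (ℕ → Bool), IsOpen U → Sig n (f ⁻¹' U)

/-- `x E₀ y`: equality of all but finitely many coordinates. -/
def EvEq (x y : ℕ → Bool) : Prop := ∃ N, ∀ n, N ≤ n → x n = y n

end Pool.Agent.Helper64.E0
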