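import Pool.Agent.Helper64.E0.Defs

/-!
# Hyperarithmetical reducibility
-/

namespace Pool.Agent.Helper64.E0

/-- `Ar m R`: `R y z v` is given by a formula of first-order arithmetic (with addition and
multiplication) with two free set variables `y`, `z` and `m` free number variables
`v 0, ..., v (m - 1)`. -/
inductive Ar : (m : ℕ) → ((ℕ → Bool) → (ℕ → Bool) → (Fin m → ℕ) → Prop) → Prop
  | add {m : ℕ} (i j k : Fin m) : Ar m fun _ _ v => v i + v j = v k
  | mul {m : ℕ} (i j k : Fin m) : Ar m fun _ _ v => v i * v j = v k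
  | fst {m : ℕ} (i : Fin m) : Ar m fun y _ v => y (v i) = true
  | snd {m : ℕ} (i : Fin m) : Ar m fun _ z v => z (v i) = true
  | neg {m : ℕ} {R : (ℕ → Bool) → (ℕ → Bool) → (Fin m → ℕ) → Prop} (h : Ar m R) :
      Ar m fun y z v => ¬ R y z v
  | and {m : ℕ} {R S : (ℕ → Bool) → (ℕ → Bool) → (Fin m → ℕ) → Prop} (h : Ar m R)
      (h' : Ar m S) : Ar m fun y z v => R y z v ∧ S y z v
  | all {m : ℕ} {R : (ℕ → Bool) → (ℕ → Bool) → (Fin (m + 1) → ℕ) → Prop}
      (h : Ar (m + 1) R) : Ar m fun y z v => ∀ n : ℕ, R y z (Fin.cons n v)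

/-- the set `A` of natural numbers is `Σ¹₁` in `y` -/
def S11 (y : ℕ → Bool) (A : ℕ → Prop) : Prop :=
  ∃ R, Ar 1 R ∧ ∀ n, A n ↔ ∃ z : ℕ → Bool, R y z fun _ => n

/-- `x` is hyperarithmetical in `y`: the set `x` is `Δ¹₁` in `y`. -/
def HypLe (x y : ℕ → Bool) : Prop := (S11 y fun n => x n = true) ∧ S11 y fun n => x n = false

/-- `x` and `y` have the same hyperdegree. -/
def HypEq (x y : ℕ → Bool) : Prop := HypLe x y ∧ HypLe y x

end Pool.Agent.Helper64.E0
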