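import Pool.Agent.Helper64.E0.Arith

/-!
# Boldface finite rank predicates of two points of the Cantor space and a countable parameter
-/

namespace Pool.Agent.Helper64.E0

/-- predicates of finite Borel rank, uniformly in the last argument (if `g` holds: all Borel
predicates) -/
inductive BF (g : Prop) : {ι : Type} → ((ℕ → Bool) → (ℕ → Bool) → ι → Prop) → Prop
  | const {ι : Type} (R : ι → Prop) : BF g fun _ _ i => R i
  | fst {ι : Type} (φ : ι → ℕ) : BF g fun x _ i => x (φ i) = true
  | snd {ι : Type} (φ : ι → ℕ) : BF g fun _ y i => y (φ i) = true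
  | neg {ι : Type} {P : (ℕ → Bool) → (ℕ → Bool) → ι → Prop} (h : BF g P) :
      BF g fun x y i => ¬ P x y i
  | and {ι : Type} {P Q : (ℕ → Bool) → (ℕ → Bool) → ι → Prop} (h : BF g P) (h' : BF g Q) :
      BF g fun x y i => P x y i ∧ Q x y i
  | ex {ι κ : Type} (hκ : Countable κ) {P : (ℕ → Bool) → (ℕ → Bool) → ι × κ → Prop}
      (h : BF g P) : BF g fun x y i => ∃ k, P x y (i, k)
  | glue {ι κ : Type} (hκ : Countable κ) (hg : g)
      {P : κ → (ℕ → Bool) → (ℕ → Bool) → ι → Prop} (h : ∀ k, BF g (P k)) :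
      BF g fun x y (p : ι × κ) => P p.2 x y p.1

namespace BF

variable {g : Prop} {ι κ ι' : Type}

theorem of_iff {P Q : (ℕ → Bool) → (ℕ → Bool) → ι → Prop} (h : BF g P)
    (hPQ : ∀ x y i, P x y i ↔ Q x y i) : BF g Q := by
  have : P = Q := funext fun x => funext fun y => funext fun i => propext (hPQ x y i)
  rwa [← this]

theorem or {P Q : (ℕ → Bool) → (ℕ → Bool) → ι → Prop} (h : BF g P) (h' : BF g Q) :
    BF g fun x y i => P x y i ∨ Q x y i :=
  (h.neg.and h'.neg).neg.of_iff fun x y i => by tauto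

theorem imp {P Q : (ℕ → Bool) → (ℕ → Bool) → ι → Prop} (h : BF g P) (h' : BF g Q) :
    BF g fun x y i => P x y i → Q x y i :=
  (h.and h'.neg).neg.of_iff fun x y i => by tauto

theorem iff {P Q : (ℕ → Bool) → (ℕ → Bool) → ι → Prop} (h : BF g P) (h' : BF g Q) :
    BF g fun x y i => (P x y i ↔ Q x y i) :=
  ((h.imp h').and (h'.imp h)).of_iff fun x y i => by tauto

/-- existential quantification, curried form -/
theorem ex' [hκ : Countable κ] {P : (ℕ → Bool) → (ℕ → Bool) → ι → κ → Prop}
    (h : BF g fun x y (p : ι × κ) => P x y p.1 p.2) : BF g fun x y i => ∃ k, P x y i k :=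
  BF.ex hκ (P := fun x y (p : ι × κ) => P x y p.1 p.2) h

/-- universal quantification, curried form -/
theorem all' [hκ : Countable κ] {P : (ℕ → Bool) → (ℕ → Bool) → ι → κ → Prop}
    (h : BF g fun x y (p : ι × κ) => P x y p.1 p.2) : BF g fun x y i => ∀ k, P x y i k :=
  (ex' (P := fun x y i k => ¬ P x y i k) h.neg).neg.of_iff fun x y i => by simp

/-- change of parameters -/
theorem sub {P : (ℕ → Bool) → (ℕ → Bool) → ι → Prop} (h : BF g P) :
    ∀ {ι' : Type} (φ : ι' → ι), BF g fun x y i => P x y (φ i) := by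
  induction h with
  | const R => exact fun φ => .const _
  | fst ψ => exact fun φ => .fst (fun i => ψ (φ i))
  | snd ψ => exact fun φ => .snd (fun i => ψ (φ i))
  | neg _ ih => exact fun φ => (ih φ).neg
  | and _ _ ih ih' => exact fun φ => (ih φ).and (ih' φ)
  | @ex ι κ hκ P _ ih =>
    intro ι' φ
    exact ex' (P := fun x y i k => P x y (φ i, k)) (ih fun p : ι' × κ => (φ p.1, p.2))
  | @glue ι κ hκ hg P _ ih =>
    intro ι' φ
    have h1 : BF g fun x y (i : ι') => ∃ k, k = (φ i).2 ∧ P k x y (φ i).1 :=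
      ex' ((BF.const fun p : ι' × κ => p.2 = (φ p.1).2).and
        (BF.glue hκ hg (P := fun k x y i => P k x y (φ i).1) fun k => ih k fun i => (φ i).1))
    exact h1.of_iff fun x y i => by simp

/-- change of the points of the Cantor space -/
theorem comp {P : (ℕ → Bool) → (ℕ → Bool) → ι → Prop} (h : BF g P)
    {F G : (ℕ → Bool) → (ℕ → Bool) → (ℕ → Bool)}
    (hF : BF g fun x y (n : ℕ) => F x y n = true) (hG : BF g fun x y (n : ℕ) => G x y n = true) :
    BF g fun x y i => P (F x y) (G x y) i := by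
  induction h with
  | const R => exact .const _
  | fst ψ => exact hF.sub ψ
  | snd ψ => exact hG.sub ψ
  | neg _ ih => exact ih.neg
  | and _ _ ih ih' => exact ih.and ih'
  | @ex ι κ hκ P _ ih => exact ex' (P := fun x y i k => P (F x y) (G x y) (i, k)) ih
  | @glue ι κ hκ hg P _ ih => exact BF.glue hκ hg (P := fun k x y i => P k (F x y) (G x y) i) ih

/-- the sections of a finite rank predicate are arithmetical in the points and a fixed
parameter -/
theorem arith (hng : ¬ g) {P : (ℕ → Bool) → (ℕ → Bool) → ι → Prop} (h : BF g P) :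
    ∀ φ : ℕ → ι, ∃ p : ℕ → Bool, ∀ O x y : ℕ → Bool, ArithLe x O → ArithLe y O → ArithLe p O →
      ADef O 1 fun v => P x y (φ (v 0)) := by
  classical
  induction h with
  | const R =>
    intro φ
    refine ⟨fun n => decide (R (φ n)), fun O x y _ _ hp => ?_⟩
    exact hp.of_iff fun v => by simp
  | fst ψ =>
    intro φ
    refine ⟨gr fun n => ψ (φ n), fun O x y hx _ hp => ?_⟩
    refine ADef.comp (P := fun n => x n = true) hx ?_
    exact ADef.graph hp 1 0
  | snd ψ =>
    intro φ
    refine ⟨gr fun n => ψ (φ n), fun O x y _ hy hp => ?_⟩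
    refine ADef.comp (P := fun n => y n = true) hy ?_
    exact ADef.graph hp 1 0
  | neg _ ih =>
    intro φ
    obtain ⟨p, hp⟩ := ih φ
    exact ⟨p, fun O x y hx hy h => (hp O x y hx hy h).neg⟩
  | and _ _ ih ih' =>
    intro φ
    obtain ⟨p, hp⟩ := ih φ
    obtain ⟨q, hq⟩ := ih' φ
    exact ⟨join p q, fun O x y hx hy h =>
      (hp O x y hx hy h.of_join_left).and (hq O x y hx hy h.of_join_right)⟩
  | @ex ι κ hκ P _ ih =>
    intro φ
    rcases isEmpty_or_nonempty κ with hE | hN
    · exact ⟨fun _ => true, fun O x y _ _ _ => (ADef.const False).of_iff fun v => by simp⟩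
    · obtain ⟨ψ, hψ⟩ := exists_surjective_nat κ
      obtain ⟨p, hp⟩ := ih fun n => (φ n.unpair.1, ψ n.unpair.2)
      refine ⟨p, fun O x y hx hy h => ?_⟩
      have h1 := hp O x y hx hy h
      have h2 : ADef O 2 fun v => P x y (φ (Nat.pair (v 1) (v 0)).unpair.1,
          ψ (Nat.pair (v 1) (v 0)).unpair.2) :=
        ADef.comp (P := fun n => P x y (φ n.unpair.1, ψ n.unpair.2)) h1
          (ADef.pair (m := 3) 2 1 0)
      refine h2.ex.of_iff fun v => ?_
      constructor
      · rintro ⟨n, hn⟩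
        refine ⟨ψ n, ?_⟩
        simpa using hn
      · rintro ⟨k, hk⟩
        obtain ⟨n, rfl⟩ := hψ k
        refine ⟨n, ?_⟩
        simpa using hk
  | glue hκ hg _ _ => exact absurd hg hng

end BF

/-- a uniform version of `Sig` -/
theorem Sig.bf {g : Prop} {n : ℕ} : ∀ {ι : Type} {A : ι → Set (ℕ → Bool)}, (∀ i, Sig n (A i)) →
    BF g fun x _ i => x ∈ A i := by
  induction n with
  | zero =>
    intro ι A hA
    have h1 : BF g fun x _ (i : ι) => ∃ p : ℕ × Finset ℕ, (∀ j : ℕ, j < p.1 → (x j = true ↔ j ∈ p.2)) ∧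
        ∀ x' : ℕ → Bool, (∀ j < p.1, x' j = true ↔ j ∈ p.2) → x' ∈ A i := by
      refine BF.ex' (BF.and ?_ (BF.const fun q : ι × (ℕ × Finset ℕ) =>
        ∀ x' : ℕ → Bool, (∀ j < q.2.1, x' j = true ↔ j ∈ q.2.2) → x' ∈ A q.1))
      refine BF.all' (BF.imp (BF.const fun q : (ι × (ℕ × Finset ℕ)) × ℕ => q.2 < q.1.2.1)
        (BF.iff (BF.fst fun q : (ι × (ℕ × Finset ℕ)) × ℕ => q.2)
          (BF.const fun q : (ι × (ℕ × Finset ℕ)) × ℕ => q.2 ∈ q.1.2.2)))
    refine h1.of_iff fun x y i => ⟨?_, ?_⟩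
    · rintro ⟨p, h, h'⟩
      exact h' x h
    · intro hx
      have hopen : IsOpen (A i) := hA i
      rw [isOpen_pi_iff] at hopen
      obtain ⟨I, u, hu, hsub⟩ := hopen x hx
      refine ⟨(I.sup id + 1, (Finset.range (I.sup id + 1)).filter fun j => x j = true), ?_, ?_⟩
      · intro j hj
        simp only at hj ⊢
        simp [hj]
      · intro x' hx'
        apply hsub
        intro j hj
        have hjI : j < I.sup id + 1 := Nat.lt_succ_of_le (Finset.le_sup (f := id) hj)
        have h2 := hx' j hjI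
        simp only [Finset.mem_filter, Finset.mem_range, hjI, true_and] at h2
        have h3 : x' j = x j := by
          cases h4 : x j <;> cases h5 : x' j <;> simp_all
        rw [h3]
        exact (hu j hj).2
  | succ n ih =>
    intro ι A hA
    choose B hB hAB using hA
    have h1 := ih (ι := ι × ℕ) (A := fun p => B p.1 p.2) fun p => hB p.1 p.2
    refine (BF.ex' (P := fun x _ i j => ¬ x ∈ B i j) h1.neg).of_iff fun x y i => ?_
    rw [hAB i]
    simp

end Pool.Agent.Helper64.E0
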