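import Pool.Agent.Helper64.E0.Arith

/-!
# Turing reductions
-/

namespace Pool.Agent.Helper64.E0

/-- Turing reducibility of points of the Cantor space -/
def TLe (x y : ℕ → Bool) : Prop :=
  TuringReducible (PFun.lift fun n => (x n).toNat) (PFun.lift fun n => (y n).toNat)

theorem TLe.refl (x : ℕ → Bool) : TLe x x := TuringReducible.refl _

theorem TLe.trans {x y z : ℕ → Bool} (h : TLe x y) (h' : TLe y z) : TLe x z :=
  TuringReducible.trans h h'

/-- total functions recursive in the oracle `z` -/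
def RO (z : ℕ → Bool) (f : ℕ → ℕ) : Prop :=
  Nat.RecursiveIn {PFun.lift fun n => (z n).toNat} fun n => Part.some (f n)

theorem RO.iff_tle {x z : ℕ → Bool} : RO z (fun n => (x n).toNat) ↔ TLe x z := by
  unfold TLe TuringReducible
  rw [RecursiveIn.iff_nat]
  rfl

theorem RO.comp {z : ℕ → Bool} {f g : ℕ → ℕ} (hf : RO z f) (hg : RO z g) :
    RO z fun n => f (g n) :=
  (Nat.RecursiveIn.comp hf hg).of_eq fun n => by
    simp only [Part.bind_eq_bind, Part.bind_some]

theorem RO.pair {z : ℕ → Bool} {f g : ℕ → ℕ} (hf : RO z f) (hg : RO z g) :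
    RO z fun n => Nat.pair (f n) (g n) :=
  (Nat.RecursiveIn.pair hf hg).of_eq fun n => by
    simp [Seq.seq]

theorem RO.prim {z : ℕ → Bool} {f : ℕ → ℕ} (hf : Primrec f) : RO z f :=
  Nat.Primrec.recursiveIn (Primrec.nat_iff.1 hf)

theorem RO.find {z : ℕ → Bool} {f g : ℕ → ℕ} (hf : RO z f)
    (h : ∀ a n, f (Nat.pair a n) = 0 ↔ g a = n) : RO z g := by
  refine (Nat.RecursiveIn.rfind hf).of_eq fun a => ?_
  rw [Part.eq_some_iff]
  refine Nat.mem_rfind.2 ⟨?_, ?_⟩
  · simp [(h a (g a)).2 rfl]
  · intro m hm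
    have h1 : ¬ f (Nat.pair a m) = 0 := fun h2 => by
      rw [h a m] at h2
      omega
    simp [h1]

theorem TLe.left (x y : ℕ → Bool) : TLe x (join x y) := by
  rw [← RO.iff_tle]
  have h1 : RO (join x y) fun n => (join x y (2 * n)).toNat :=
    (RO.iff_tle.2 (TLe.refl (join x y))).comp
      (RO.prim (Primrec.nat_mul.comp (Primrec.const 2) Primrec.id))
  simpa only [join_even] using h1

theorem TLe.right (x y : ℕ → Bool) : TLe y (join x y) := by
  rw [← RO.iff_tle]
  have h1 : RO (join x y) fun n => (join x y (2 * n + 1)).toNat :=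
    (RO.iff_tle.2 (TLe.refl (join x y))).comp
      (RO.prim (Primrec.succ.comp (Primrec.nat_mul.comp (Primrec.const 2) Primrec.id)))
  simpa only [join_odd] using h1

theorem TLe.join {x y z : ℕ → Bool} (hx : TLe x z) (hy : TLe y z) :
    TLe (join x y) z := by
  rw [← RO.iff_tle] at hx hy ⊢
  have hd : Primrec fun n : ℕ => n / 2 := Primrec.nat_div.comp Primrec.id (Primrec.const 2)
  have h1 : RO z fun n => Nat.pair n (Nat.pair (x (n / 2)).toNat (y (n / 2)).toNat) :=
    (RO.prim Primrec.id).pair ((hx.comp (RO.prim hd)).pair (hy.comp (RO.prim hd)))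
  have h2 : Primrec fun m : ℕ => if m.unpair.1 % 2 = 0 then m.unpair.2.unpair.1
      else m.unpair.2.unpair.2 := by
    have hu : Primrec Nat.unpair := Primrec.unpair
    refine Primrec.ite ?_ ?_ ?_
    · exact PrimrecRel.comp Primrec.eq
        (Primrec.nat_mod.comp (Primrec.fst.comp hu) (Primrec.const 2)) (Primrec.const 0)
    · exact Primrec.fst.comp (hu.comp (Primrec.snd.comp hu))
    · exact Primrec.snd.comp (hu.comp (Primrec.snd.comp hu))
  have h3 := (RO.prim (z := z) h2).comp h1
  have h4 : (fun n => (E0.join x y n).toNat) = fun n =>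
      if (Nat.pair n (Nat.pair (x (n / 2)).toNat (y (n / 2)).toNat)).unpair.1 % 2 = 0 then
        (Nat.pair n (Nat.pair (x (n / 2)).toNat (y (n / 2)).toNat)).unpair.2.unpair.1
      else (Nat.pair n (Nat.pair (x (n / 2)).toNat (y (n / 2)).toNat)).unpair.2.unpair.2 := by
    funext n
    simp only [Nat.unpair_pair]
    unfold E0.join
    split_ifs <;> rfl
  rw [h4]
  exact h3

theorem TLe.perm {b z : ℕ → Bool} {π : ℕ → ℕ} (h : TLe (gr π) b) :
    TLe (E0.join b fun n => z (π n)) (E0.join b z) := by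
  refine TLe.join (TLe.left b z) ?_
  have hz := RO.iff_tle.2 (TLe.right b z)
  have hg := RO.iff_tle.2 (h.trans (TLe.left b z))
  have h1 : RO (E0.join b z) π := by
    have h2 : Primrec fun m : ℕ => 1 - m := Primrec.nat_sub.comp (Primrec.const 1) Primrec.id
    refine RO.find ((RO.prim h2).comp hg) fun a n => ?_
    rw [← gr_pair π a n]
    cases gr π (Nat.pair a n) <;> simp
  exact RO.iff_tle.1 (hz.comp h1)

theorem TEq.perm {b z : ℕ → Bool} {π : Equiv.Perm ℕ} (h : TLe (gr π) b)
    (h' : TLe (gr π.symm) b) : TEq (E0.join b z) (E0.join b fun n => z (π n)) := by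
  refine ⟨?_, TLe.perm h⟩
  have h1 := TLe.perm (z := fun n => z (π n)) h'
  simp only [Equiv.apply_symm_apply] at h1
  exact h1

end Pool.Agent.Helper64.E0
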