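import Pool.Agent.Helper64.E0.Code
import Pool.Agent.Helper64.E0.Turing

/-!
# Finite rank homomorphisms from arithmetic equivalence
-/

open MeasureTheory Measure Filter Topology
open scoped ENNReal

namespace Pool.Agent.Helper64.E0

theorem ADef.isConst {O : ℕ → Bool} (k : ℕ) : ∀ {m : ℕ} (i : Fin m), ADef O m fun v => v i = k := by
  induction k with
  | zero => exact fun i => ADef.isZero i
  | succ k ih =>
    intro m i
    have h1 : ADef O m fun v => ∃ t : ℕ, t = k ∧ ∃ e : ℕ, e = 1 ∧ t + e = v i :=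
      ((ih (m := m + 1) 0).and ((ADef.isOne (m := m + 2) 0).and
        (ADef.add (m := m + 2) 1 0 i.succ.succ)).ex).ex
    exact h1.of_iff fun v => by
      constructor
      · rintro ⟨t, rfl, e, rfl, h⟩
        exact h.symm
      · intro h
        exact ⟨k, rfl, 1, rfl, h.symm⟩

/-- sections of finite rank functions -/
theorem BF.arithLe {F : (ℕ → Bool) → (ℕ → Bool) → ℕ → (ℕ → Bool)}
    (hF : BF False fun x y (p : ℕ × ℕ) => F x y p.1 p.2 = true) :
    ∃ p : ℕ → Bool, ∀ O x y k, ArithLe x O → ArithLe y O → ArithLe p O →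
      ArithLe (F x y k) O := by
  obtain ⟨p, hp⟩ := hF.arith not_false Nat.unpair
  refine ⟨p, fun O x y k hx hy hpO => ?_⟩
  have h1 := hp O x y hx hy hpO
  have h2 : ADef O 1 fun v => F x y (Nat.pair k (v 0)).unpair.1 (Nat.pair k (v 0)).unpair.2 = true := by
    refine ADef.comp (P := fun n => F x y n.unpair.1 n.unpair.2 = true) h1 ?_
    have h3 : ADef O 2 fun v => ∃ t : ℕ, t = k ∧ Nat.pair t (v 1) = v 0 :=
      ((ADef.isConst (m := 3) k 0).and (ADef.pair (m := 3) 0 2 1)).ex
    exact h3.of_iff fun v => by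
      constructor
      · rintro ⟨t, rfl, h⟩
        exact h
      · intro h
        exact ⟨k, rfl, h⟩
  exact h2.of_iff fun v => by simp

theorem lt_real_iff {A : Set (ℕ → Bool)} : 1 / 2 < (mu ℕ).real A ↔ 2⁻¹ < mu ℕ A := by
  unfold Measure.real
  have h1 : (1 / 2 : ℝ) = (2⁻¹ : ℝ≥0∞).toReal := by
    rw [ENNReal.toReal_inv]
    norm_num
  rw [h1, ENNReal.toReal_lt_toReal (by norm_num) (measure_ne_top _ _)]

theorem core {γ : Prop} (H : ℕ → (ℕ → Bool) → (ℕ → Bool))
    (hHB : BF γ fun x _ (p : ℕ × ℕ) => H p.1 x p.2 = true)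
    (hmono : ∀ k x y, H k x = H k y → H (k + 1) x = H (k + 1) y)
    (hinv : ∀ x y, TEq x y → ∃ k, H k x = H k y) :
    ∃ E D : (ℕ → Bool) → (ℕ → Bool) → ℕ → (ℕ → Bool),
      (BF γ fun x y (p : ℕ × ℕ) => E x y p.1 p.2 = true) ∧
      (BF γ fun x y (p : ℕ × ℕ) => D x y p.1 p.2 = true) ∧
      ∀ b : ℕ → Bool, (∀ c, TLe (gr (perm c)) b ∧ TLe (gr (perm c).symm) b) →
        ∃ (N : ℕ) (c : ℕ → Bool), ∀ w, H N (join b (E b w N)) = c ∧ D b (E b w N) N = w := by
  have hjB : BF γ fun x y (n : ℕ) => join x y n = true := by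
    have h1 : BF γ fun x y (n : ℕ) => (n % 2 = 0 ∧ x (n / 2) = true) ∨
        (¬ n % 2 = 0 ∧ y (n / 2) = true) :=
      ((BF.const fun n : ℕ => n % 2 = 0).and (BF.fst fun n : ℕ => n / 2)).or
        ((BF.const fun n : ℕ => ¬ n % 2 = 0).and (BF.snd fun n : ℕ => n / 2))
    exact h1.of_iff fun x y n => by
      unfold join
      by_cases h : n % 2 = 0
      · simp [h]
      · simp [h]
  have hGB : BF γ fun x y (p : ℕ × ℕ) => H p.1 (join x y) p.2 = true := hHB.comp hjB hjB
  have hcB : BF γ fun x _ (p : ℕ × ℕ) => maj (fun z => H p.1 (join x z)) p.2 = true := by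
    refine (hGB.lt_measure fun _ => 2⁻¹).of_iff fun x y p => ?_
    unfold maj
    rw [decide_eq_true_iff, lt_real_iff]
  have hPB : BF γ fun x y (k : ℕ) => H k (join x y) = maj (fun z => H k (join x z)) := by
    have h1 : BF γ fun x y (k : ℕ) => ∀ i : ℕ,
        (H k (join x y) i = true ↔ maj (fun z => H k (join x z)) i = true) :=
      BF.all' (hGB.iff hcB)
    refine h1.of_iff fun x y k => ?_
    rw [funext_iff]
    refine forall_congr' fun i => ?_
    exact Bool.eq_iff_iff.symm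
  obtain ⟨V, hVB, hVm, hVs, hVl⟩ := hPB.apx.2
  obtain ⟨E, D, hE, hD, hED⟩ := code (v := fun x k => V x k 1)
    (hVB.sub fun q : ℕ × ℕ × Finset ℕ => (q.1, 1, q.2)) fun x k => hVm x k 1
  refine ⟨E, D, hE, hD, fun b hb => ?_⟩
  have hT : ∀ z c, TEq (join b z) (join b fun n => z (perm c n)) := fun z c =>
    TEq.perm (hb c).1 (hb c).2
  obtain ⟨N, hN⟩ := majority (fun k z => H k (join b z)) (fun k => by
    rw [measurable_pi_iff]
    intro i
    refine measurable_to_bool ?_
    exact hGB.measurable b (k, i)) (fun k z z' h => hmono k _ _ h) fun z c => hinv _ _ (hT z c)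
  refine ⟨N, maj fun z => H N (join b z), fun w => ?_⟩
  have hpos : 0 < mu ℕ {y | ¬ y ∈ Op (V b N 1)} := by
    rw [lt_real_iff] at hN
    have h1 : mu ℕ {y | H N (join b y) = maj fun z => H N (join b z)} ≤
        mu ℕ {y | ¬ y ∈ Op (V b N 1)} + 2⁻¹ ^ 1 := by
      refine le_trans (measure_mono ?_) ((measure_union_le _ _).trans
        (add_le_add le_rfl (hVl b N 1)))
      intro y hy
      by_cases h2 : y ∈ Op (V b N 1)
      · exact Or.inr ⟨h2, not_not.2 hy⟩
      · exact Or.inl h2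
    rw [pow_one] at h1
    have h2 := lt_of_lt_of_le hN h1
    by_contra hcon
    rw [le_antisymm (not_lt.1 hcon) zero_le, zero_add] at h2
    exact lt_irrefl _ h2
  obtain ⟨hK, hdec⟩ := hED b N hpos w
  refine ⟨?_, hdec⟩
  by_contra hcon
  exact hK (hVs b N 1 _ hcon)

/-- the parameter coding the permutations -/
noncomputable def permCode : ℕ → Bool :=
  join (join (gr (perm true)) (gr (perm true).symm)) (join (gr (perm false)) (gr (perm false).symm))

theorem permCode_spec {b : ℕ → Bool} (hb : TLe permCode b) (c : Bool) :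
    TLe (gr (perm c)) b ∧ TLe (gr (perm c).symm) b := by
  cases c
  · exact ⟨((TLe.left _ _).trans (TLe.right _ _)).trans hb,
      ((TLe.right _ _).trans (TLe.right _ _)).trans hb⟩
  · exact ⟨((TLe.left _ _).trans (TLe.left _ _)).trans hb,
      ((TLe.right _ _).trans (TLe.left _ _)).trans hb⟩

theorem main (H : ℕ → (ℕ → Bool) → (ℕ → Bool))
    (hrank : ∃ n, ∀ k, ∀ U : Set (ℕ → Bool), IsOpen U → Sig n (H k ⁻¹' U))
    (hmono : ∀ k x y, H k x = H k y → H (k + 1) x = H (k + 1) y)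
    (hinv : ∀ x y, TEq x y → ∃ k, H k x = H k y) :
    ∃ (N : ℕ) (c b : ℕ → Bool), ∀ w, ArithLe b w → ∃ x, ArithEq x w ∧ H N x = c := by
  obtain ⟨n, hn⟩ := hrank
  -- the graph of `H` has finite rank
  have hHB : BF False fun x _ (p : ℕ × ℕ) => H p.1 x p.2 = true := by
    refine Sig.bf (n := n) (A := fun p : ℕ × ℕ => {x | H p.1 x p.2 = true}) fun p => ?_
    refine hn p.1 {z | z p.2 = true} ?_
    exact (isOpen_discrete ({true} : Set Bool)).preimage
      (continuous_apply (A := fun _ : ℕ => Bool) p.2)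
  obtain ⟨E, D, hE, hD, hED⟩ := core H hHB hmono hinv
  obtain ⟨pE, hpE⟩ := BF.arithLe hE
  obtain ⟨pD, hpD⟩ := BF.arithLe hD
  set b : ℕ → Bool := join (join pE pD) permCode with hb
  have hbE : ArithLe pE b := (le_join_left pE pD).trans (le_join_left _ _)
  have hbD : ArithLe pD b := (le_join_right pE pD).trans (le_join_left _ _)
  obtain ⟨N, c, hN⟩ := hED b (permCode_spec (TLe.right _ _))
  refine ⟨N, c, b, fun w hw => ?_⟩
  obtain ⟨hH, hdec⟩ := hN w
  have hyw : ArithLe (E b w N) w := hpE w b w N hw (ArithLe.refl w) (hbE.trans hw)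
  refine ⟨join b (E b w N), ⟨join_le hw hyw, ?_⟩, hH⟩
  have h1 := hpD (join b (E b w N)) b (E b w N) N (le_join_left _ _) (le_join_right _ _)
    (hbD.trans (le_join_left _ _))
  rw [hdec] at h1
  exact h1

end Pool.Agent.Helper64.E0
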