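import Pool.Agent.Helper64.E0.DefsH
import Pool.Agent.Helper64.E0.Main

/-!
# Properties of hyperarithmetical reducibility
-/

namespace Pool.Agent.Helper64.E0

namespace Ar

variable {m k : ℕ}

theorem of_iff {R S : (ℕ → Bool) → (ℕ → Bool) → (Fin m → ℕ) → Prop} (h : Ar m R)
    (hRS : ∀ y z v, R y z v ↔ S y z v) : Ar m S := by
  have : R = S := funext fun y => funext fun z => funext fun v => propext (hRS y z v)
  rwa [← this]

theorem or {R S : (ℕ → Bool) → (ℕ → Bool) → (Fin m → ℕ) → Prop} (h : Ar m R) (h' : Ar m S) :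
    Ar m fun y z v => R y z v ∨ S y z v :=
  (h.neg.and h'.neg).neg.of_iff fun y z v => by tauto

theorem imp {R S : (ℕ → Bool) → (ℕ → Bool) → (Fin m → ℕ) → Prop} (h : Ar m R) (h' : Ar m S) :
    Ar m fun y z v => R y z v → S y z v :=
  (h.and h'.neg).neg.of_iff fun y z v => by tauto

theorem ex {R : (ℕ → Bool) → (ℕ → Bool) → (Fin (m + 1) → ℕ) → Prop} (h : Ar (m + 1) R) :
    Ar m fun y z v => ∃ n : ℕ, R y z (Fin.cons n v) :=
  h.neg.all.neg.of_iff fun y z v => by simp

theorem subst {R : (ℕ → Bool) → (ℕ → Bool) → (Fin m → ℕ) → Prop} (h : Ar m R) :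
    ∀ {k : ℕ} (ρ : Fin m → Fin k), Ar k fun y z v => R y z fun i => v (ρ i) := by
  induction h with
  | add i j l => exact fun ρ => .add _ _ _
  | mul i j l => exact fun ρ => .mul _ _ _
  | fst i => exact fun ρ => .fst _
  | snd i => exact fun ρ => .snd _
  | neg _ ih => exact fun ρ => (ih ρ).neg
  | and _ _ ih ih' => exact fun ρ => (ih ρ).and (ih' ρ)
  | @all m R _ ih =>
    intro k ρ
    have h1 := (ih (k := k + 1) (Fin.cons 0 fun i => (ρ i).succ)).all
    refine h1.of_iff fun y z v => forall_congr' fun n => ?_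
    have : (fun i : Fin (m + 1) => (Fin.cons n v : Fin (k + 1) → ℕ)
        ((Fin.cons 0 fun i => (ρ i).succ : Fin (m + 1) → Fin (k + 1)) i)) =
        Fin.cons n fun i => v (ρ i) := by
      funext i
      refine Fin.cases ?_ (fun i => ?_) i <;> simp
    rw [this]

theorem tt : Ar m fun _ _ _ => True := by
  have h : Ar m fun _ _ _ => ∃ n : ℕ, n + n = n := (Ar.add (m := m + 1) 0 0 0).ex
  exact h.of_iff fun y z v => ⟨fun _ => trivial, fun _ => ⟨0, rfl⟩⟩

theorem const (p : Prop) : Ar m fun _ _ _ => p := by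
  by_cases hp : p
  · exact tt.of_iff fun _ _ _ => by simp [hp]
  · exact tt.neg.of_iff fun _ _ _ => by simp [hp]

theorem le (i j : Fin m) : Ar m fun _ _ v => v i ≤ v j := by
  have h : Ar m fun _ _ v => ∃ n : ℕ, v i + n = v j :=
    (Ar.add (m := m + 1) i.succ 0 j.succ).ex
  exact h.of_iff fun _ _ v => ⟨fun ⟨n, hn⟩ => by omega, fun h => ⟨v j - v i, by omega⟩⟩

theorem eq (i j : Fin m) : Ar m fun _ _ v => v i = v j :=
  ((le i j).and (le j i)).of_iff fun _ _ v => by omega

theorem lt (i j : Fin m) : Ar m fun _ _ v => v i < v j :=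
  (le j i).neg.of_iff fun _ _ v => by omega

theorem isZero (i : Fin m) : Ar m fun _ _ v => v i = 0 :=
  (Ar.add i i i).of_iff fun _ _ v => by omega

theorem isOne (i : Fin m) : Ar m fun _ _ v => v i = 1 :=
  ((Ar.mul i i i).and (isZero i).neg).of_iff fun _ _ v => by
    constructor
    · rintro ⟨h1, h2⟩
      exact (Nat.mul_eq_left h2).1 h1
    · rintro h
      rw [h]
      exact ⟨rfl, one_ne_zero⟩

theorem sum3 (i j l s : Fin m) : Ar m fun _ _ v => v i + v j + v l = v s := by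
  have h : Ar m fun _ _ v => ∃ n : ℕ, v i + v j = n ∧ n + v l = v s :=
    ((Ar.add (m := m + 1) i.succ j.succ 0).and (Ar.add 0 l.succ s.succ)).ex
  exact h.of_iff fun _ _ v => by simp

theorem pair (i j l : Fin m) : Ar m fun _ _ v => Nat.pair (v i) (v j) = v l := by
  have h1 : Ar m fun _ _ v => v i < v j ∧ ∃ n : ℕ, v j * v j = n ∧ n + v i = v l :=
    (lt i j).and ((Ar.mul (m := m + 1) j.succ j.succ 0).and (Ar.add 0 i.succ l.succ)).ex
  have h2 : Ar m fun _ _ v => ¬ v i < v j ∧ ∃ n : ℕ, v i * v i = n ∧ n + v i + v j = v l :=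
    (lt i j).neg.and
      ((Ar.mul (m := m + 1) i.succ i.succ 0).and (sum3 0 i.succ j.succ l.succ)).ex
  refine (h1.or h2).of_iff fun _ _ v => ?_
  unfold Nat.pair
  split_ifs with h
  · simp [h]
  · simp [h]

theorem isConst (k : ℕ) : ∀ {m : ℕ} (i : Fin m), Ar m fun _ _ v => v i = k := by
  induction k with
  | zero => exact fun i => isZero i
  | succ k ih =>
    intro m i
    have h1 : Ar m fun _ _ v => ∃ t : ℕ, t = k ∧ ∃ e : ℕ, e = 1 ∧ t + e = v i :=
      ((ih (m := m + 1) 0).and ((isOne (m := m + 2) 0).and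
        (Ar.add (m := m + 2) 1 0 i.succ.succ)).ex).ex
    exact h1.of_iff fun _ _ v => by
      constructor
      · rintro ⟨t, rfl, e, rfl, h⟩
        exact h.symm
      · intro h
        exact ⟨k, rfl, 1, rfl, h.symm⟩

/-- substitution of sets for the set variables -/
theorem subst2 {R : (ℕ → Bool) → (ℕ → Bool) → (Fin m → ℕ) → Prop} (h : Ar m R) {p : ℕ}
    {A B : (ℕ → Bool) → (ℕ → Bool) → (Fin (p + 1) → ℕ) → Prop} (hA : Ar (p + 1) A)
    (hB : Ar (p + 1) B) : ∀ {q : ℕ} (τ : Fin m → Fin q) (σ : Fin p → Fin q)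
      (F G : (ℕ → Bool) → (ℕ → Bool) → (Fin q → ℕ) → (ℕ → Bool)),
      (∀ y z v k, F y z v k = true ↔ A y z (Fin.cons k fun i => v (σ i))) →
      (∀ y z v k, G y z v k = true ↔ B y z (Fin.cons k fun i => v (σ i))) →
      Ar q fun y z v => R (F y z v) (G y z v) fun i => v (τ i) := by
  have hcons : ∀ {q : ℕ} (σ : Fin p → Fin q) (t : Fin q) (v : Fin q → ℕ),
      (fun i : Fin (p + 1) => v ((Fin.cons t σ : Fin (p + 1) → Fin q) i)) =
      Fin.cons (v t) fun i => v (σ i) := by
    intro q σ t v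
    funext i
    refine Fin.cases ?_ (fun i => ?_) i <;> simp
  induction h with
  | add i j l => exact fun τ σ F G _ _ => .add _ _ _
  | mul i j l => exact fun τ σ F G _ _ => .mul _ _ _
  | fst i =>
    intro q τ σ F G hF _
    have h1 := hA.subst (Fin.cons (τ i) σ)
    exact h1.of_iff fun y z v => by
      rw [hcons]
      exact (hF y z v (v (τ i))).symm
  | snd i =>
    intro q τ σ F G _ hG
    have h1 := hB.subst (Fin.cons (τ i) σ)
    exact h1.of_iff fun y z v => by
      rw [hcons]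
      exact (hG y z v (v (τ i))).symm
  | neg _ ih => exact fun τ σ F G hF hG => (ih τ σ F G hF hG).neg
  | and _ _ ih ih' => exact fun τ σ F G hF hG => (ih τ σ F G hF hG).and (ih' τ σ F G hF hG)
  | @all m R _ ih =>
    intro q τ σ F G hF hG
    have h1 := (ih (q := q + 1) (Fin.cons 0 fun i => (τ i).succ) (fun i => (σ i).succ)
      (fun y z v => F y z fun i => v i.succ) (fun y z v => G y z fun i => v i.succ)
      (fun y z v k => by rw [hF]) (fun y z v k => by rw [hG])).all
    refine h1.of_iff fun y z v => forall_congr' fun n => ?_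
    have h2 : (fun i : Fin (m + 1) => (Fin.cons n v : Fin (q + 1) → ℕ)
        ((Fin.cons 0 fun i => (τ i).succ : Fin (m + 1) → Fin (q + 1)) i)) =
        Fin.cons n fun i => v (τ i) := by
      funext i
      refine Fin.cases ?_ (fun i => ?_) i <;> simp
    rw [h2]
    simp only [Fin.cons_succ]

/-- a set variable at a code -/
theorem sndPair {q : ℕ} (c : ℕ) (i : Fin q) : Ar q fun _ z v => z (Nat.pair c (v i)) = true := by
  have h1 : Ar q fun _ z v => ∃ t s : ℕ, t = c ∧ Nat.pair t (v i) = s ∧ z s = true :=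
    ((isConst (m := q + 2) c 1).and ((pair 1 i.succ.succ 0).and (.snd 0))).ex.ex
  exact h1.of_iff fun _ z v => by
    constructor
    · rintro ⟨t, s, rfl, rfl, h⟩
      exact h
    · intro h
      exact ⟨c, _, rfl, rfl, h⟩

theorem sndPair2 {q : ℕ} (c : ℕ) (i j : Fin q) :
    Ar q fun _ z v => z (Nat.pair c (Nat.pair (v i) (v j))) = true := by
  have h1 : Ar q fun _ z v => ∃ s : ℕ, Nat.pair (v i) (v j) = s ∧ z (Nat.pair c s) = true :=
    ((pair (m := q + 1) i.succ j.succ 0).and (sndPair c 0)).ex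
  exact h1.of_iff fun _ z v => by simp

end Ar

theorem fin1 (v : Fin 1 → ℕ) : v = fun _ => v 0 := by
  funext i
  rw [Subsingleton.elim i 0]

/-- `Σ¹₁` sets of a point which is hyperarithmetical in `O` are `Σ¹₁` in `O` -/
theorem S11.trans {y O : ℕ → Bool} {A : ℕ → Prop} (h : S11 y A) (hy : HypLe y O) : S11 O A := by
  classical
  obtain ⟨R, hR, hRA⟩ := h
  obtain ⟨⟨S1, hS1, h1⟩, S2, hS2, h2⟩ := hy
  refine ⟨fun O u v => (∀ k : ℕ, (u (Nat.pair 0 k) = true → S1 O (fun j =>
      u (Nat.pair 2 (Nat.pair k j))) fun _ => k) ∧ (¬ u (Nat.pair 0 k) = true → S2 O (fun j =>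
      u (Nat.pair 3 (Nat.pair k j))) fun _ => k)) ∧
      R (fun j => u (Nat.pair 0 j)) (fun j => u (Nat.pair 1 j)) v, ?_, ?_⟩
  · -- the three parts
    have hf : ∀ q : ℕ, Ar (q + 1) fun y _ v => y (v 0) = true := fun q => .fst 0
    have p1 : Ar 2 fun O u v => S1 O (fun j => u (Nat.pair 2 (Nat.pair (v 0) j))) fun _ => v 0 :=
      hS1.subst2 (p := 1) (hf 1) (Ar.sndPair2 2 1 0) (fun _ => 0) (fun _ => 0)
        (fun O _ _ => O) (fun _ u v j => u (Nat.pair 2 (Nat.pair (v 0) j)))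
        (fun y z v k => by simp) (fun y z v k => by rfl)
    have p2 : Ar 2 fun O u v => S2 O (fun j => u (Nat.pair 3 (Nat.pair (v 0) j))) fun _ => v 0 :=
      hS2.subst2 (p := 1) (hf 1) (Ar.sndPair2 3 1 0) (fun _ => 0) (fun _ => 0)
        (fun O _ _ => O) (fun _ u v j => u (Nat.pair 3 (Nat.pair (v 0) j)))
        (fun y z v k => by simp) (fun y z v k => by rfl)
    have p3 : Ar 1 fun (O : ℕ → Bool) u v =>
        R (fun j => u (Nat.pair 0 j)) (fun j => u (Nat.pair 1 j)) v :=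
      (hR.subst2 (p := 0) (Ar.sndPair 0 0) (Ar.sndPair 1 0) (fun _ => 0) (fun i => i.elim0)
        (fun _ u _ j => u (Nat.pair 0 j)) (fun _ u _ j => u (Nat.pair 1 j))
        (fun y z v k => by rfl) (fun y z v k => by rfl)).of_iff fun y z v => by rw [← fin1 v]
    exact ((((Ar.sndPair (q := 2) 0 0).imp p1).and ((Ar.sndPair (q := 2) 0 0).neg.imp p2)).all).and p3
  · intro n
    rw [hRA]
    constructor
    · rintro ⟨z, hz⟩
      have c1 : ∀ k, ∃ w, y k = true → S1 O w fun _ => k := by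
        intro k
        by_cases hk : y k = true
        · obtain ⟨w, hw⟩ := (h1 k).1 hk
          exact ⟨w, fun _ => hw⟩
        · exact ⟨fun _ => true, fun h => absurd h hk⟩
      have c2 : ∀ k, ∃ w, ¬ y k = true → S2 O w fun _ => k := by
        intro k
        by_cases hk : y k = true
        · exact ⟨fun _ => true, fun h => absurd hk h⟩
        · obtain ⟨w, hw⟩ := (h2 k).1 (by simpa using hk)
          exact ⟨w, fun _ => hw⟩
      choose w1 hw1 using c1
      choose w2 hw2 using c2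
      set u : ℕ → Bool := fun a =>
        if a.unpair.1 = 0 then y a.unpair.2
        else if a.unpair.1 = 1 then z a.unpair.2
        else if a.unpair.1 = 2 then w1 a.unpair.2.unpair.1 a.unpair.2.unpair.2
        else w2 a.unpair.2.unpair.1 a.unpair.2.unpair.2 with hu
      have u0 : ∀ j, u (Nat.pair 0 j) = y j := fun j => by simp [hu]
      have u1 : ∀ j, u (Nat.pair 1 j) = z j := fun j => by simp [hu]
      have u2 : ∀ k j, u (Nat.pair 2 (Nat.pair k j)) = w1 k j := fun k j => by simp [hu]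
      have u3 : ∀ k j, u (Nat.pair 3 (Nat.pair k j)) = w2 k j := fun k j => by simp [hu]
      refine ⟨u, fun k => ⟨?_, ?_⟩, ?_⟩
      · simp only [u0, u2]
        exact hw1 k
      · simp only [u0, u3]
        exact hw2 k
      · simp only [u0, u1]
        exact hz
    · rintro ⟨u, hu, hz⟩
      have hy : (fun j => u (Nat.pair 0 j)) = y := by
        funext k
        by_cases hk : u (Nat.pair 0 k) = true
        · rw [hk]
          exact ((h1 k).2 ⟨_, (hu k).1 hk⟩).symm
        · have h3 := (h2 k).2 ⟨_, (hu k).2 hk⟩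
          rw [h3]
          simpa using hk
      rw [hy] at hz
      exact ⟨_, hz⟩

theorem HypLe.trans {x y O : ℕ → Bool} (h : HypLe x y) (h' : HypLe y O) : HypLe x O :=
  ⟨h.1.trans h', h.2.trans h'⟩

theorem ADef.ar {y : ℕ → Bool} {m : ℕ} {R : (Fin m → ℕ) → Prop} (h : ADef y m R) :
    ∃ R', Ar m R' ∧ ∀ z v, R' y z v ↔ R v := by
  induction h with
  | add i j l => exact ⟨_, .add i j l, fun _ _ => Iff.rfl⟩
  | mul i j l => exact ⟨_, .mul i j l, fun _ _ => Iff.rfl⟩
  | orc i => exact ⟨_, .fst i, fun _ _ => Iff.rfl⟩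
  | neg _ ih =>
    obtain ⟨R', hR', h⟩ := ih
    exact ⟨_, hR'.neg, fun z v => by rw [h]⟩
  | and _ _ ih ih' =>
    obtain ⟨R', hR', h⟩ := ih
    obtain ⟨S', hS', h'⟩ := ih'
    exact ⟨_, hR'.and hS', fun z v => by rw [h, h']⟩
  | all _ ih =>
    obtain ⟨R', hR', h⟩ := ih
    exact ⟨_, hR'.all, fun z v => by simp only [h]⟩

theorem ArithLe.hyp {x y : ℕ → Bool} (h : ArithLe x y) : HypLe x y := by
  obtain ⟨R', hR', h1⟩ := ADef.ar h
  constructor
  · exact ⟨R', hR', fun n => ⟨fun h => ⟨fun _ => true, (h1 _ _).2 h⟩, fun ⟨z, hz⟩ => (h1 _ _).1 hz⟩⟩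
  · refine ⟨_, hR'.neg, fun n => ⟨fun h => ⟨fun _ => true, ?_⟩, fun ⟨z, hz⟩ => ?_⟩⟩
    · rw [h1]
      simp [h]
    · rw [h1] at hz
      simpa using hz

theorem HypLe.join {x y z : ℕ → Bool} (hx : HypLe x z) (hy : HypLe y z) :
    HypLe (join x y) z := by
  -- a general statement for both truth values
  have key : ∀ c : Bool, S11 z (fun n => x n = c) → S11 z (fun n => y n = c) →
      S11 z fun n => E0.join x y n = c := by
    rintro c ⟨R, hR, hx⟩ ⟨S, hS, hy⟩
    refine ⟨fun a b v => (∃ t : ℕ, t + t = v 0 ∧ R a b fun _ => t) ∨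
      (∃ t : ℕ, (∃ e : ℕ, e = 1 ∧ t + t + e = v 0) ∧ S a b fun _ => t), ?_, ?_⟩
    · refine Ar.or ?_ ?_
      · have h1 := hR.subst (k := 2) fun _ => 0
        exact ((Ar.add (m := 2) 0 0 1).and h1).ex
      · have h1 := hS.subst (k := 2) fun _ => 0
        exact ((((Ar.isOne (m := 3) 0).and (Ar.sum3 1 1 0 2)).ex).and h1).ex
    · intro n
      change E0.join x y n = c ↔ ∃ w : ℕ → Bool, (∃ t : ℕ, t + t = n ∧ R z w fun _ => t) ∨
        (∃ t : ℕ, (∃ e : ℕ, e = 1 ∧ t + t + e = n) ∧ S z w fun _ => t)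
      constructor
      · intro h
        rcases Nat.even_or_odd' n with ⟨t, ht | ht⟩
        · rw [ht, join_even] at h
          obtain ⟨w, hw⟩ := (hx t).1 h
          exact ⟨w, Or.inl ⟨t, by omega, hw⟩⟩
        · rw [ht, join_odd] at h
          obtain ⟨w, hw⟩ := (hy t).1 h
          exact ⟨w, Or.inr ⟨t, ⟨1, rfl, by omega⟩, hw⟩⟩
      · rintro ⟨w, ⟨t, ht, hw⟩ | ⟨t, ⟨e, rfl, ht⟩, hw⟩⟩
        · rw [← ht, ← two_mul, join_even]
          exact (hx t).2 ⟨w, hw⟩
        · rw [← ht, ← two_mul, join_odd]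
          exact (hy t).2 ⟨w, hw⟩
  exact ⟨key true hx.1 hy.1, key false hx.2 hy.2⟩

end Pool.Agent.Helper64.E0
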