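import Pool.Agent.Helper64.E0.Hyp

/-!
# Borel predicates and hyperarithmetical reducibility
-/

open MeasureTheory Topology

namespace Pool.Agent.Helper64.E0

/-- the code `n ↦ (join p x)` of a parameter and a point -/
theorem Ar.fstEven {q : ℕ} (i : Fin q) :
    Ar q fun y _ v => y (2 * v i) = true := by
  have h1 : Ar q fun y _ v => ∃ t : ℕ, v i + v i = t ∧ y t = true :=
    ((Ar.add (m := q + 1) i.succ i.succ 0).and (.fst 0)).ex
  exact h1.of_iff fun y _ v => by
    constructor
    · rintro ⟨t, rfl, h⟩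
      rwa [two_mul]
    · intro h
      exact ⟨_, rfl, by rwa [← two_mul]⟩

theorem Ar.fstOdd {q : ℕ} (i : Fin q) :
    Ar q fun y _ v => y (2 * v i + 1) = true := by
  have h1 : Ar q fun y _ v => ∃ t : ℕ, (∃ e : ℕ, e = 1 ∧ v i + v i + e = t) ∧ y t = true :=
    (((Ar.isOne (m := q + 2) 0).and (Ar.sum3 i.succ.succ i.succ.succ 0 1)).ex.and (.fst 0)).ex
  exact h1.of_iff fun y _ v => by
    constructor
    · rintro ⟨t, ⟨e, rfl, rfl⟩, h⟩
      rwa [two_mul]
    · intro h
      exact ⟨_, ⟨1, rfl, rfl⟩, by rwa [← two_mul]⟩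

theorem Ar.fstEvenPair {q : ℕ} (i j : Fin q) :
    Ar q fun y _ v => y (2 * Nat.pair (v i) (v j)) = true := by
  have h1 : Ar q fun y _ v => ∃ t : ℕ, Nat.pair (v i) (v j) = t ∧ y (2 * t) = true :=
    ((Ar.pair (m := q + 1) i.succ j.succ 0).and (Ar.fstEven 0)).ex
  exact h1.of_iff fun y _ v => by simp

/-- finite rank predicates are uniformly arithmetical in a parameter -/
theorem BF.ar {γ : Prop} {ι : Type} (hng : ¬ γ)
    {P : (ℕ → Bool) → (ℕ → Bool) → ι → Prop} (h : BF γ P) :
    ∀ φ : ℕ → ι, ∃ (p : ℕ → Bool) (R : (ℕ → Bool) → (ℕ → Bool) → (Fin 1 → ℕ) → Prop), Ar 1 R ∧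
      ∀ x y n, P x y (φ n) ↔ R (join p x) y fun _ => n := by
  classical
  induction h with
  | const R =>
    intro φ
    refine ⟨fun n => decide (R (φ n)), _, Ar.fstEven 0, fun x y n => ?_⟩
    rw [join_even]
    simp
  | fst ψ =>
    intro φ
    refine ⟨gr fun n => ψ (φ n), fun y _ v => ∃ k : ℕ, y (2 * Nat.pair (v 0) k) = true ∧
      y (2 * k + 1) = true, ((Ar.fstEvenPair (q := 2) 1 0).and (Ar.fstOdd 0)).ex,
      fun x y n => ?_⟩
    simp only [join_even, join_odd, gr_pair]
    simp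
  | snd ψ =>
    intro φ
    refine ⟨gr fun n => ψ (φ n), fun y z v => ∃ k : ℕ, y (2 * Nat.pair (v 0) k) = true ∧
      z k = true, ((Ar.fstEvenPair (q := 2) 1 0).and (.snd 0)).ex,
      fun x y n => ?_⟩
    simp only [join_even, gr_pair]
    simp
  | neg _ ih =>
    intro φ
    obtain ⟨p, R, hR, h⟩ := ih φ
    exact ⟨p, _, hR.neg, fun x y n => not_congr (h x y n)⟩
  | and _ _ ih ih' =>
    intro φ
    obtain ⟨p, R, hR, h⟩ := ih φ
    obtain ⟨p', R', hR', h'⟩ := ih' φ
    -- `join p x` and `join p' x` from `join (join p p') x`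
    have hA : Ar 1 fun y _ v => (∃ i : ℕ, i + i = v 0 ∧ y (2 * (2 * i)) = true) ∨
        (∃ i : ℕ, (∃ e : ℕ, e = 1 ∧ i + i + e = v 0) ∧ y (2 * i + 1) = true) := by
      have h1 : Ar 2 fun y _ v => ∃ t : ℕ, v 0 + v 0 = t ∧ y (2 * t) = true :=
        ((Ar.add (m := 3) 1 1 0).and (Ar.fstEven 0)).ex
      have h2 : Ar 2 fun y _ v => y (2 * (2 * v 0)) = true := h1.of_iff fun y _ v => by
        constructor
        · rintro ⟨t, rfl, h⟩
          rwa [two_mul (v 0)]
        · intro h
          exact ⟨_, rfl, by rwa [← two_mul (v 0)]⟩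
      exact (((Ar.add (m := 2) 0 0 1).and h2).ex).or
        (((((Ar.isOne (m := 3) 0).and (Ar.sum3 1 1 0 2)).ex).and (Ar.fstOdd 0)).ex)
    have hB : Ar 1 fun y _ v => (∃ i : ℕ, i + i = v 0 ∧ y (2 * (2 * i + 1)) = true) ∨
        (∃ i : ℕ, (∃ e : ℕ, e = 1 ∧ i + i + e = v 0) ∧ y (2 * i + 1) = true) := by
      have h1 : Ar 2 fun y _ v => ∃ t : ℕ, (∃ e : ℕ, e = 1 ∧ v 0 + v 0 + e = t) ∧
          y (2 * t) = true :=
        ((((Ar.isOne (m := 4) 0).and (Ar.sum3 2 2 0 1)).ex).and (Ar.fstEven 0)).ex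
      have h2 : Ar 2 fun y _ v => y (2 * (2 * v 0 + 1)) = true := h1.of_iff fun y _ v => by
        constructor
        · rintro ⟨t, ⟨e, rfl, rfl⟩, h⟩
          rwa [two_mul (v 0)]
        · intro h
          exact ⟨_, ⟨1, rfl, rfl⟩, by rwa [← two_mul (v 0)]⟩
      exact (((Ar.add (m := 2) 0 0 1).and h2).ex).or
        (((((Ar.isOne (m := 3) 0).and (Ar.sum3 1 1 0 2)).ex).and (Ar.fstOdd 0)).ex)
    have hS : Ar 1 fun (_ z : ℕ → Bool) v => z (v 0) = true := .snd 0
    -- the substituted predicates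
    set FA : (ℕ → Bool) → (ℕ → Bool) → (Fin 1 → ℕ) → (ℕ → Bool) := fun y _ _ k =>
      decide ((∃ i : ℕ, i + i = k ∧ y (2 * (2 * i)) = true) ∨
        (∃ i : ℕ, (∃ e : ℕ, e = 1 ∧ i + i + e = k) ∧ y (2 * i + 1) = true)) with hFA
    set FB : (ℕ → Bool) → (ℕ → Bool) → (Fin 1 → ℕ) → (ℕ → Bool) := fun y _ _ k =>
      decide ((∃ i : ℕ, i + i = k ∧ y (2 * (2 * i + 1)) = true) ∨
        (∃ i : ℕ, (∃ e : ℕ, e = 1 ∧ i + i + e = k) ∧ y (2 * i + 1) = true)) with hFB
    have s1 := hR.subst2 (p := 0) hA hS (fun _ => (0 : Fin 1)) (fun i => i.elim0) FA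
      (fun _ z _ => z) (fun y z v k => by simp only [hFA, decide_eq_true_eq]; rfl)
      (fun y z v k => by rfl)
    have s2 := hR'.subst2 (p := 0) hB hS (fun _ => (0 : Fin 1)) (fun i => i.elim0) FB
      (fun _ z _ => z) (fun y z v k => by simp only [hFB, decide_eq_true_eq]; rfl)
      (fun y z v k => by rfl)
    refine ⟨join p p', _, s1.and s2, fun x y n => ?_⟩
    have e1 : ∀ v z, FA (join (join p p') x) z v = join p x := by
      intro v z
      funext k
      rw [Bool.eq_iff_iff]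
      simp only [hFA, decide_eq_true_eq, join_even, join_odd]
      constructor
      · rintro (⟨i, rfl, h⟩ | ⟨i, ⟨e, rfl, rfl⟩, h⟩)
        · rwa [← two_mul, join_even]
        · rwa [← two_mul, join_odd]
      · intro h
        rcases Nat.even_or_odd' k with ⟨t, ht | ht⟩
        · rw [ht, join_even] at h
          exact Or.inl ⟨t, by omega, h⟩
        · rw [ht, join_odd] at h
          exact Or.inr ⟨t, ⟨1, rfl, by omega⟩, h⟩
    have e2 : ∀ v z, FB (join (join p p') x) z v = join p' x := by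
      intro v z
      funext k
      rw [Bool.eq_iff_iff]
      simp only [hFB, decide_eq_true_eq, join_even, join_odd]
      constructor
      · rintro (⟨i, rfl, h⟩ | ⟨i, ⟨e, rfl, rfl⟩, h⟩)
        · rwa [← two_mul, join_even]
        · rwa [← two_mul, join_odd]
      · intro h
        rcases Nat.even_or_odd' k with ⟨t, ht | ht⟩
        · rw [ht, join_even] at h
          exact Or.inl ⟨t, by omega, h⟩
        · rw [ht, join_odd] at h
          exact Or.inr ⟨t, ⟨1, rfl, by omega⟩, h⟩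
    simp only [e1, e2]
    exact and_congr (h x y n) (h' x y n)
  | @ex ι κ hκ P _ ih =>
    intro φ
    rcases isEmpty_or_nonempty κ with hE | hN
    · refine ⟨fun _ => true, _, Ar.const False, fun x y n => ?_⟩
      simp
    · obtain ⟨ψ, hψ⟩ := exists_surjective_nat κ
      obtain ⟨p, R, hR, h⟩ := ih fun n => (φ n.unpair.1, ψ n.unpair.2)
      have h1 : Ar 1 fun y z v => ∃ m k : ℕ, Nat.pair (v 0) m = k ∧ R y z fun _ => k :=
        ((Ar.pair (m := 3) 2 1 0).and (hR.subst fun _ => 0)).ex.ex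
      refine ⟨p, _, h1, fun x y n => ?_⟩
      constructor
      · rintro ⟨k, hk⟩
        obtain ⟨m, rfl⟩ := hψ k
        refine ⟨m, _, rfl, ?_⟩
        rw [← h]
        simpa using hk
      · rintro ⟨m, k, rfl, hk⟩
        rw [← h] at hk
        exact ⟨ψ m, by simpa using hk⟩
  | glue hκ hg _ _ => exact absurd hg hng

/-- joint measurability -/
theorem BF.measurable2 {γ : Prop} {ι : Type} {P : (ℕ → Bool) → (ℕ → Bool) → ι → Prop}
    (h : BF γ P) : ∀ i, MeasurableSet
      {w : ℕ → Bool | P (fun n => w (2 * n)) (fun n => w (2 * n + 1)) i} := by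
  induction h with
  | const R => exact fun i => MeasurableSet.const _
  | fst φ => exact fun i => measurableSet_eq_fun (measurable_pi_apply _) measurable_const
  | snd φ => exact fun i => measurableSet_eq_fun (measurable_pi_apply _) measurable_const
  | neg _ ih => exact fun i => (ih i).compl
  | and _ _ ih ih' => exact fun i => (ih i).inter (ih' i)
  | @ex ι κ hκ P _ ih =>
    intro i
    have h1 : {w : ℕ → Bool | ∃ k, P (fun n => w (2 * n)) (fun n => w (2 * n + 1)) (i, k)} =
        ⋃ k, {w : ℕ → Bool | P (fun n => w (2 * n)) (fun n => w (2 * n + 1)) (i, k)} := by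
      ext w
      simp
    rw [h1]
    exact MeasurableSet.iUnion fun k => ih (i, k)
  | glue _ _ _ ih => exact fun i => ih i.2 i.1

/-- Borel predicates as projections of finite rank predicates -/
theorem BF.proj {γ : Prop} {ι : Type} {P : (ℕ → Bool) → (ℕ → Bool) → ι → Prop}
    (h : BF γ P) (φ : ℕ → ι) : ∃ B : (ℕ → Bool) → (ℕ → Bool) → ℕ → Prop, BF False B ∧
      ∀ x y n, P x y (φ n) ↔ ∃ z, B (join x y) z n := by
  classical
  set A : ℕ → Set (ℕ → Bool) := fun n =>
    {w | P (fun n => w (2 * n)) (fun n => w (2 * n + 1)) (φ n)} with hA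
  have hAx : ∀ x y n, P x y (φ n) ↔ join x y ∈ A n := by
    intro x y n
    simp only [hA, Set.mem_ofPred_eq, join_even, join_odd]
  have han : ∀ n, ∃ (e : Prop) (f : (ℕ → ℕ) → (ℕ → Bool)), Continuous f ∧
      ∀ w, w ∈ A n ↔ e ∧ ∃ h, f h = w := by
    intro n
    have hc : TopologicalSpace.IsCompletelyMetrizableSpace (ℕ → Bool) :=
      TopologicalSpace.IsCompletelyMetrizableSpace.pi_countable
    have h1 : AnalyticSet (A n) := (h.measurable2 (φ n)).analyticSet
    rw [AnalyticSet] at h1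
    rcases h1 with h1 | ⟨f, hf, h1⟩
    · exact ⟨False, fun _ _ => true, continuous_const, fun w => by rw [h1]; simp⟩
    · exact ⟨True, f, hf, fun w => by rw [← h1]; simp⟩
  choose e f hf hAf using han
  -- the graph of a function
  set B : (ℕ → Bool) → (ℕ → Bool) → ℕ → Prop := fun w z n =>
    (e n ∧ (∀ k : ℕ, ∃ v : ℕ, z (Nat.pair k v) = true)) ∧
    (∀ q : ℕ × ℕ × ℕ, z (Nat.pair q.1 q.2.1) = true → z (Nat.pair q.1 q.2.2) = true →
      q.2.1 = q.2.2) ∧
    ∀ j : ℕ, (w j = true ↔ ∃ s : List ℕ, (∀ i : ℕ, i < s.length →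
      z (Nat.pair i (s.getD i 0)) = true) ∧
      ∀ h : ℕ → ℕ, (∀ i < s.length, h i = s.getD i 0) → f n h j = true) with hB
  have hBB : BF False B := by
    refine BF.and (BF.and (BF.const e) (BF.all' (BF.ex' (BF.snd fun q : (ℕ × ℕ) × ℕ =>
      Nat.pair q.1.2 q.2)))) (BF.and (BF.all' (BF.imp (BF.snd fun q : ℕ × ℕ × ℕ × ℕ =>
        Nat.pair q.2.1 q.2.2.1) (BF.imp (BF.snd fun q : ℕ × ℕ × ℕ × ℕ =>
        Nat.pair q.2.1 q.2.2.2) (BF.const fun q : ℕ × ℕ × ℕ × ℕ => q.2.2.1 = q.2.2.2))))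
      (BF.all' (BF.iff (BF.fst fun q : ℕ × ℕ => q.2) (BF.ex' (BF.and (BF.all' (BF.imp
        (BF.const fun q : ((ℕ × ℕ) × List ℕ) × ℕ => q.2 < q.1.2.length)
        (BF.snd fun q : ((ℕ × ℕ) × List ℕ) × ℕ => Nat.pair q.2 (q.1.2.getD q.2 0))))
        (BF.const fun q : (ℕ × ℕ) × List ℕ => ∀ h : ℕ → ℕ,
          (∀ i < q.2.length, h i = q.2.getD i 0) → f q.1.1 h q.1.2 = true))))))
  refine ⟨B, hBB, fun x y n => ?_⟩
  rw [hAx, hAf]
  -- the value at `j` in terms of initial segments
  have hseg : ∀ (h : ℕ → ℕ) (j : ℕ), f n h j = true ↔ ∃ s : List ℕ, (∀ i : ℕ, i < s.length →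
      gr h (Nat.pair i (s.getD i 0)) = true) ∧
      ∀ h' : ℕ → ℕ, (∀ i < s.length, h' i = s.getD i 0) → f n h' j = true := by
    intro h j
    constructor
    · intro hj
      have hopen : IsOpen {h' | f n h' j = true} :=
        (isOpen_discrete ({true} : Set Bool)).preimage
          ((continuous_apply (A := fun _ : ℕ => Bool) j).comp (hf n))
      rw [isOpen_pi_iff] at hopen
      obtain ⟨I, u, hu, hsub⟩ := hopen h hj
      set m := I.sup id + 1 with hm
      have hg : ∀ i < m, ((List.range m).map h).getD i 0 = h i := by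
        intro i hi
        rw [List.getD_eq_getElem _ _ (by simpa using hi)]
        simp
      refine ⟨(List.range m).map h, fun i hi => ?_, fun h' hh' => ?_⟩
      · have hi' : i < m := by simpa using hi
        rw [gr_pair, hg i hi']
      · apply hsub
        intro i hi
        have him : i < m := Nat.lt_succ_of_le (Finset.le_sup (f := id) hi)
        rw [hh' i (by simpa using him), hg i him]
        exact (hu i hi).2
    · rintro ⟨s, hs, hs'⟩
      exact hs' h fun i hi => by
        have := hs i hi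
        rwa [gr_pair] at this
  constructor
  · rintro ⟨he, h, hw⟩
    refine ⟨gr h, ⟨he, fun k => ⟨h k, (gr_pair h _ _).2 rfl⟩⟩, ?_, fun j => ?_⟩
    · rintro ⟨k, a, b⟩ ha hb
      rw [gr_pair] at ha hb
      exact ha.symm.trans hb
    · rw [← hw]
      exact hseg h j
  · rintro ⟨z, ⟨he, hz1⟩, hz2, hz3⟩
    choose h hh using hz1
    refine ⟨he, h, ?_⟩
    funext j
    rw [Bool.eq_iff_iff, hz3 j, hseg h j]
    refine exists_congr fun s => and_congr_left fun _ => forall_congr' fun i =>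
      forall_congr' fun _ => ?_
    rw [gr_pair]
    constructor
    · intro h1
      rw [← h1]
      exact hh i
    · intro h1
      exact hz2 (i, h i, s.getD i 0) (hh i) h1

/-- sections of Borel functions -/
theorem BF.hypLe {γ : Prop} {F : (ℕ → Bool) → (ℕ → Bool) → ℕ → (ℕ → Bool)}
    (hF : BF γ fun x y (p : ℕ × ℕ) => F x y p.1 p.2 = true) :
    ∃ p : ℕ → Bool, ∀ O x y k, HypLe x O → HypLe y O → HypLe p O → HypLe (F x y k) O := by
  obtain ⟨B, hB, hBP⟩ := hF.proj Nat.unpair
  obtain ⟨p, R, hR, hpR⟩ := hB.ar not_false id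
  obtain ⟨B', hB', hBP'⟩ := hF.neg.proj Nat.unpair
  obtain ⟨p', R', hR', hpR'⟩ := hB'.ar not_false id
  refine ⟨join p p', fun O x y k hx hy hp => ?_⟩
  have h1 : HypLe p O := (le_join_left p p').hyp.trans hp
  have h2 : HypLe p' O := (le_join_right p p').hyp.trans hp
  set G : ℕ → Bool := fun a => F x y a.unpair.1 a.unpair.2 with hG
  have h3 : HypLe G O := by
    constructor
    · refine S11.trans (y := join p (join x y)) ⟨R, hR, fun n => ?_⟩ (h1.join (hx.join hy))
      rw [hG]
      change F x y n.unpair.1 n.unpair.2 = true ↔ _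
      rw [hBP x y n]
      exact exists_congr fun z => hpR (join x y) z n
    · refine S11.trans (y := join p' (join x y)) ⟨R', hR', fun n => ?_⟩ (h2.join (hx.join hy))
      have h4 : G n = false ↔ ¬ F x y n.unpair.1 n.unpair.2 = true := by
        rw [hG]
        simp
      change G n = false ↔ _
      rw [h4, hBP' x y n]
      exact exists_congr fun z => hpR' (join x y) z n
  refine HypLe.trans (ArithLe.hyp ?_) h3
  have h5 : ADef G 1 fun v => G (Nat.pair k (v 0)) = true := by
    refine ADef.comp (P := fun n => G n = true) (ADef.orc 0) ?_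
    have h6 : ADef G 2 fun v => ∃ t : ℕ, t = k ∧ Nat.pair t (v 1) = v 0 :=
      ((ADef.isConst (m := 3) k 0).and (ADef.pair (m := 3) 0 2 1)).ex
    exact h6.of_iff fun v => by
      constructor
      · rintro ⟨t, rfl, h⟩
        exact h
      · intro h
        exact ⟨k, rfl, h⟩
  exact h5.of_iff fun v => by
    rw [hG]
    simp

/-- measurable sets are Borel predicates -/
theorem BF.of_measurable {A : Set (ℕ → Bool)} (hA : MeasurableSet A) :
    BF True fun x _ (_ : Unit) => x ∈ A := by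
  rw [BorelSpace.measurable_eq (α := ℕ → Bool)] at hA
  induction hA with
  | basic U hU => exact Sig.bf (n := 0) (A := fun _ : Unit => U) fun _ => hU
  | empty => exact (BF.const fun _ : Unit => False).of_iff fun x y i => by simp
  | compl t _ ih => exact ih.neg
  | iUnion f _ ih =>
    have h1 : BF True fun x _ (i : Unit) => ∃ k : ℕ, x ∈ f k :=
      BF.ex' (BF.glue inferInstance trivial (P := fun k x _ (_ : Unit) => x ∈ f k) ih)
    exact h1.of_iff fun x y i => by simp

theorem BF.of_measurable_family {ι : Type} [hι : Countable ι] {A : ι → Set (ℕ → Bool)}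
    (hA : ∀ i, MeasurableSet (A i)) : BF True fun x _ (i : ι) => x ∈ A i :=
  (BF.glue hι trivial (P := fun k x _ (_ : Unit) => x ∈ A k) fun k =>
    BF.of_measurable (hA k)).sub fun i => ((), i)

theorem mainH (H : ℕ → (ℕ → Bool) → (ℕ → Bool)) (hH : ∀ k, Measurable (H k))
    (hmono : ∀ k x y, H k x = H k y → H (k + 1) x = H (k + 1) y)
    (hinv : ∀ x y, TEq x y → ∃ k, H k x = H k y) :
    ∃ (N : ℕ) (c b : ℕ → Bool), ∀ w, HypLe b w → ∃ x, HypEq x w ∧ H N x = c := by
  have hHB : BF True fun x _ (p : ℕ × ℕ) => H p.1 x p.2 = true :=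
    BF.of_measurable_family (A := fun p : ℕ × ℕ => {x | H p.1 x p.2 = true}) fun p =>
      measurableSet_eq_fun ((measurable_pi_apply p.2).comp (hH p.1)) measurable_const
  obtain ⟨E, D, hE, hD, hED⟩ := core H hHB hmono hinv
  obtain ⟨pE, hpE⟩ := BF.hypLe hE
  obtain ⟨pD, hpD⟩ := BF.hypLe hD
  set b : ℕ → Bool := join (join pE pD) permCode with hb
  have hbE : HypLe pE b := ((le_join_left pE pD).trans (le_join_left _ _)).hyp
  have hbD : HypLe pD b := ((le_join_right pE pD).trans (le_join_left _ _)).hyp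
  obtain ⟨N, c, hN⟩ := hED b (permCode_spec (TLe.right _ _))
  refine ⟨N, c, b, fun w hw => ?_⟩
  obtain ⟨hH, hdec⟩ := hN w
  have hyw : HypLe (E b w N) w := hpE w b w N hw (ArithLe.refl w).hyp (hbE.trans hw)
  refine ⟨join b (E b w N), ⟨hw.join hyw, ?_⟩, hH⟩
  have h1 := hpD (join b (E b w N)) b (E b w N) N (le_join_left _ _).hyp (le_join_right _ _).hyp
    (hbD.trans (le_join_left _ _).hyp)
  rw [hdec] at h1
  exact h1

end Pool.Agent.Helper64.E0
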