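import Pool.Agent.Helper64.E0.Turing

/-!
# Turing reducibility implies arithmetical reducibility
-/

namespace Pool.Agent.Helper64.E0

/-- the graph of a partial function, as a relation -/
def Gr (O : ℕ → Bool) (f : ℕ →. ℕ) : Prop := ADef O 2 fun v => v 1 ∈ f (v 0)

theorem Gr.app {O : ℕ → Bool} {f : ℕ →. ℕ} (h : Gr O f) {m : ℕ} (i j : Fin m) :
    ADef O m fun v => v j ∈ f (v i) :=
  ADef.bin (P := fun a b => b ∈ f a) h i j

theorem ADef.isSucc {O : ℕ → Bool} {m : ℕ} (i j : Fin m) : ADef O m fun v => v i + 1 = v j := by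
  have h1 : ADef O m fun v => ∃ e : ℕ, e = 1 ∧ v i + e = v j :=
    ((ADef.isOne (m := m + 1) 0).and (ADef.add i.succ 0 j.succ)).ex
  exact h1.of_iff fun v => by simp

/-- the graph of the beta function -/
theorem ADef.isMod {O : ℕ → Bool} {m : ℕ} (a b r : Fin m) :
    ADef O m fun v => v b ≠ 0 ∧ v a % v b = v r := by
  have h1 : ADef O m fun v => v r < v b ∧ ∃ q t : ℕ, v b * q = t ∧ t + v r = v a :=
    (ADef.lt r b).and ((ADef.mul (m := m + 2) b.succ.succ 1 0).and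
      (ADef.add 0 r.succ.succ a.succ.succ)).ex.ex
  refine h1.of_iff fun v => ?_
  constructor
  · rintro ⟨h, q, t, rfl, ht⟩
    refine ⟨by omega, ?_⟩
    rw [← ht, Nat.mul_add_mod, Nat.mod_eq_of_lt h]
  · rintro ⟨h, h'⟩
    refine ⟨by rw [← h']; exact Nat.mod_lt _ (Nat.pos_of_ne_zero h), v a / v b, _, rfl, ?_⟩
    rw [← h']
    exact Nat.div_add_mod _ _

theorem ADef.isBeta {O : ℕ → Bool} {m : ℕ} (n i r : Fin m) :
    ADef O m fun v => Nat.beta (v n) (v i) = v r := by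
  -- `beta n i = n₁ % ((i + 1) * n₂ + 1)`
  have h1 : ADef O m fun v => ∃ n₁ n₂ s t u : ℕ, Nat.pair n₁ n₂ = v n ∧ v i + 1 = s ∧
      s * n₂ = t ∧ t + 1 = u ∧ u ≠ 0 ∧ n₁ % u = v r :=
    ((ADef.pair (m := m + 5) 4 3 n.succ.succ.succ.succ.succ).and
      ((ADef.isSucc i.succ.succ.succ.succ.succ 2).and ((ADef.mul 2 3 1).and
        ((ADef.isSucc 1 0).and (ADef.isMod 4 0 r.succ.succ.succ.succ.succ))))).ex.ex.ex.ex.ex
  refine h1.of_iff fun v => ?_
  unfold Nat.beta
  constructor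
  · rintro ⟨n₁, n₂, s, t, u, h, rfl, rfl, rfl, _, h'⟩
    rw [← h, Nat.unpair_pair]
    exact h'
  · intro h
    exact ⟨(v n).unpair.1, (v n).unpair.2, _, _, _, Nat.pair_unpair _, rfl, rfl, rfl,
      Nat.succ_ne_zero _, h⟩

/-- the result of a primitive recursion -/
def recP (f h : ℕ →. ℕ) (a n : ℕ) : Part ℕ :=
  n.rec (f a) fun y IH => IH.bind fun i => h (Nat.pair a (Nat.pair y i))

theorem mem_recP {f h : ℕ →. ℕ} {a n : ℕ} : ∀ {r : ℕ}, r ∈ recP f h a n ↔
    ∃ g : ℕ → ℕ, g 0 ∈ f a ∧ (∀ i < n, g (i + 1) ∈ h (Nat.pair a (Nat.pair i (g i)))) ∧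
      g n = r := by
  induction n with
  | zero =>
    intro r
    constructor
    · intro hr
      exact ⟨fun _ => r, hr, fun i hi => absurd hi (Nat.not_lt_zero _), rfl⟩
    · rintro ⟨g, h0, _, rfl⟩
      exact h0
  | succ n ih =>
    intro r
    have h1 : r ∈ recP f h a (n + 1) ↔ ∃ i ∈ recP f h a n, r ∈ h (Nat.pair a (Nat.pair n i)) :=
      Part.mem_bind_iff
    rw [h1]
    constructor
    · rintro ⟨i, hi, hr⟩
      obtain ⟨g, h0, hs, hn⟩ := ih.1 hi
      refine ⟨Function.update g (n + 1) r, ?_, fun j hj => ?_, by simp⟩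
      · rw [Function.update_of_ne (by omega)]
        exact h0
      · rw [Function.update_of_ne (show j ≠ n + 1 by omega)]
        rcases Nat.lt_succ_iff_lt_or_eq.1 hj with h2 | h2
        · rw [Function.update_of_ne (show j + 1 ≠ n + 1 by omega)]
          exact hs j h2
        · rw [h2, Function.update_self, hn]
          exact hr
    · rintro ⟨g, h0, hs, hn⟩
      refine ⟨g n, ih.2 ⟨g, h0, fun i hi => hs i (by omega), rfl⟩, ?_⟩
      rw [← hn]
      exact hs n (Nat.lt_succ_self n)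

/-- every function recursive in `y` is arithmetical in `y` -/
theorem Gr.of_rec {y : ℕ → Bool} {f : ℕ →. ℕ}
    (h : Nat.RecursiveIn {PFun.lift fun n => (y n).toNat} f) : Gr y f := by
  induction h with
  | zero =>
    exact (ADef.isZero (m := 2) 1).of_iff fun v => by
      change v 1 = 0 ↔ v 1 ∈ Part.some 0
      rw [Part.mem_some_iff]
  | succ =>
    exact (ADef.isSucc (m := 2) 0 1).of_iff fun v => by
      change v 0 + 1 = v 1 ↔ v 1 ∈ Part.some (v 0 + 1)
      rw [Part.mem_some_iff, eq_comm]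
  | left =>
    have h1 : ADef y 2 fun v => ∃ t : ℕ, Nat.pair (v 1) t = v 0 :=
      (ADef.pair (m := 3) 2 0 1).ex
    exact h1.of_iff fun v => by
      change _ ↔ v 1 ∈ Part.some (v 0).unpair.1
      rw [Part.mem_some_iff]
      constructor
      · rintro ⟨t, ht⟩
        rw [← ht, Nat.unpair_pair]
      · intro h
        exact ⟨(v 0).unpair.2, by rw [h, Nat.pair_unpair]⟩
  | right =>
    have h1 : ADef y 2 fun v => ∃ t : ℕ, Nat.pair t (v 1) = v 0 :=
      (ADef.pair (m := 3) 0 2 1).ex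
    exact h1.of_iff fun v => by
      change _ ↔ v 1 ∈ Part.some (v 0).unpair.2
      rw [Part.mem_some_iff]
      constructor
      · rintro ⟨t, ht⟩
        rw [← ht, Nat.unpair_pair]
      · intro h
        exact ⟨(v 0).unpair.1, by rw [h, Nat.pair_unpair]⟩
  | oracle g hg =>
    rw [Set.mem_singleton_iff] at hg
    subst hg
    have h1 : ADef y 2 fun v => (y (v 0) = true ∧ v 1 = 1) ∨ (¬ y (v 0) = true ∧ v 1 = 0) :=
      ((ADef.orc (m := 2) 0).and (ADef.isOne 1)).or ((ADef.orc (m := 2) 0).neg.and (ADef.isZero 1))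
    exact h1.of_iff fun v => by
      change _ ↔ v 1 ∈ Part.some (y (v 0)).toNat
      rw [Part.mem_some_iff]
      cases y (v 0) <;> simp
  | @pair f h _ _ ihf ihh =>
    have h1 : ADef y 2 fun v => ∃ a b : ℕ, a ∈ f (v 0) ∧ b ∈ h (v 0) ∧ Nat.pair a b = v 1 :=
      ((ihf.app (m := 4) 2 1).and ((ihh.app (m := 4) 2 0).and (ADef.pair (m := 4) 1 0 3))).ex.ex
    exact h1.of_iff fun v => by
      change _ ↔ v 1 ∈ (Nat.pair <$> f (v 0) <*> h (v 0))
      simp only [Seq.seq, Part.map_eq_map, Part.mem_bind_iff, Part.mem_map_iff]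
      constructor
      · rintro ⟨a, b, ha, hb, hab⟩
        exact ⟨Nat.pair a, ⟨a, ha, rfl⟩, b, hb, hab⟩
      · rintro ⟨g, ⟨a, ha, rfl⟩, b, hb, hab⟩
        exact ⟨a, b, ha, hb, hab⟩
  | @comp f h _ _ ihf ihh =>
    have h1 : ADef y 2 fun v => ∃ a : ℕ, a ∈ h (v 0) ∧ v 1 ∈ f a :=
      ((ihh.app (m := 3) 1 0).and (ihf.app (m := 3) 0 2)).ex
    exact h1.of_iff fun v => Part.mem_bind_iff.symm
  | @prec f h _ _ ihf ihh =>
    -- `v = (p, r)`, `p = pair a n`; a sequence coded by `s`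
    have h1 : ADef y 2 fun v => ∃ a n s : ℕ, Nat.pair a n = v 0 ∧
        (∃ t : ℕ, Nat.beta s n = t ∧ t = v 1) ∧
        (∃ z t : ℕ, z = 0 ∧ Nat.beta s z = t ∧ t ∈ f a) ∧
        ∀ i : ℕ, i < n → ∃ j t t' q q' : ℕ, i + 1 = j ∧ Nat.beta s i = t ∧ Nat.beta s j = t' ∧
          Nat.pair i t = q ∧ Nat.pair a q = q' ∧ t' ∈ h q' := by
      exact ((ADef.pair (m := 5) 2 1 3).and ((((ADef.isBeta (m := 6) 1 2 0).and
        (ADef.eq 0 5)).ex).and ((((ADef.isZero (m := 7) 1).and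
        ((ADef.isBeta 2 1 0).and (ihf.app 4 0))).ex.ex).and
        (((ADef.lt (m := 6) 0 2).imp (((ADef.isSucc (m := 11) 5 4).and
        ((ADef.isBeta 6 5 3).and ((ADef.isBeta 6 4 2).and
          ((ADef.pair 5 3 1).and ((ADef.pair 8 1 0).and (ihh.app 0 2)))))).ex.ex.ex.ex.ex)).all)))).ex.ex.ex
    refine h1.of_iff fun v => ?_
    have hF : ∀ a n : ℕ, v 0 = Nat.pair a n →
        (v 1 ∈ (let (a, n) := Nat.unpair (v 0)
          n.rec (f a) fun y IH => do
            let i ← IH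
            h (Nat.pair a (Nat.pair y i)) : Part ℕ) ↔ v 1 ∈ recP f h a n) := by
      intro a n han
      rw [han, Nat.unpair_pair]
      rfl
    change _ ↔ v 1 ∈ (let (a, n) := Nat.unpair (v 0)
          n.rec (f a) fun y IH => do
            let i ← IH
            h (Nat.pair a (Nat.pair y i)) : Part ℕ)
    rw [hF (v 0).unpair.1 (v 0).unpair.2 (Nat.pair_unpair _).symm, mem_recP]
    constructor
    · rintro ⟨a, n, s, han, ⟨t, ht, rfl⟩, ⟨z, t', rfl, ht', hf⟩, hstep⟩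
      rw [← han, Nat.unpair_pair]
      refine ⟨fun i => Nat.beta s i, by subst ht'; exact hf, fun i hi => ?_, ht⟩
      obtain ⟨j, t1, t2, q, q', rfl, rfl, rfl, rfl, rfl, hh⟩ := hstep i hi
      exact hh
    · rintro ⟨g, hg0, hgs, hgn⟩
      set a := (v 0).unpair.1
      set n := (v 0).unpair.2
      set l := (List.range (n + 1)).map g with hl
      have hlen : l.length = n + 1 := by simp [hl]
      have hb : ∀ i, i ≤ n → Nat.beta (Nat.unbeta l) i = g i := by
        intro i hi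
        have h2 := Nat.beta_unbeta_coe l ⟨i, by omega⟩
        simp only at h2
        rw [h2]
        simp [hl]
      refine ⟨a, n, Nat.unbeta l, Nat.pair_unpair _, ⟨v 1, by rw [hb n le_rfl, hgn], rfl⟩,
        ⟨0, g 0, rfl, hb 0 (Nat.zero_le _), hg0⟩, fun i hi => ?_⟩
      exact ⟨i + 1, g i, g (i + 1), _, _, rfl, hb i hi.le, hb (i + 1) hi, rfl, rfl, hgs i hi⟩
  | @rfind f _ ih =>
    have h1 : ADef y 2 fun v => (∃ p z : ℕ, Nat.pair (v 0) (v 1) = p ∧ z = 0 ∧ z ∈ f p) ∧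
        ∀ i : ℕ, i < v 1 → ∃ p z : ℕ, Nat.pair (v 0) i = p ∧ ¬ z = 0 ∧ z ∈ f p := by
      exact (((ADef.pair (m := 4) 2 3 1).and ((ADef.isZero 0).and (ih.app 1 0))).ex.ex).and
        (((ADef.lt (m := 3) 0 2).imp
        (((ADef.pair (m := 5) 3 2 1).and ((ADef.isZero 0).neg.and (ih.app 1 0))).ex.ex)).all)
    refine h1.of_iff fun v => ?_
    change _ ↔ v 1 ∈ Nat.rfind fun n => (fun m => decide (m = 0)) <$> f (Nat.pair (v 0) n)
    constructor
    · rintro ⟨⟨p, z, rfl, rfl, hz⟩, h2⟩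
      refine Nat.mem_rfind.2 ⟨?_, ?_⟩
      · exact (Part.mem_map_iff _).2 ⟨0, hz, by simp⟩
      · intro i hi
        obtain ⟨p, z, rfl, hz0, hz⟩ := h2 i hi
        exact (Part.mem_map_iff _).2 ⟨z, hz, by simpa using hz0⟩
    · intro h2
      obtain ⟨h3, h4⟩ := Nat.mem_rfind.1 h2
      obtain ⟨z, hz, hz0⟩ := (Part.mem_map_iff _).1 h3
      refine ⟨⟨_, z, rfl, by simpa using hz0, hz⟩, fun i hi => ?_⟩
      obtain ⟨z, hz, hz0⟩ := (Part.mem_map_iff _).1 (h4 hi)
      exact ⟨_, z, rfl, by simpa using hz0, hz⟩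

theorem TLe.arithLe {x y : ℕ → Bool} (h : TLe x y) : ArithLe x y := by
  have h1 : Gr y fun n => Part.some (x n).toNat := Gr.of_rec (RO.iff_tle.2 h)
  have h2 : ADef y 1 fun v => ∃ e : ℕ, e = 1 ∧ e ∈ (fun n => Part.some (x n).toNat : ℕ →. ℕ) (v 0) :=
    ((ADef.isOne (m := 2) 0).and (h1.app 1 0)).ex
  exact h2.of_iff fun v => by
    constructor
    · rintro ⟨e, rfl, he⟩
      have h3 : 1 = (x (v 0)).toNat := Part.mem_some_iff.1 he
      cases h4 : x (v 0)
      · rw [h4] at h3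
        simp at h3
      · rfl
    · intro h3
      refine ⟨1, rfl, Part.mem_some_iff.2 ?_⟩
      rw [h3]
      rfl

theorem TEq.arithEq {x y : ℕ → Bool} (h : TEq x y) : ArithEq x y :=
  ⟨TLe.arithLe h.1, TLe.arithLe h.2⟩

end Pool.Agent.Helper64.E0
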