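import Pool.Agent.Helper40.Haagerup.Gap

/-!
# Walsh functions and the spectral gap of the Bernoulli shift of a free group
-/

open MeasureTheory Measure
open scoped InnerProductSpace ENNReal symmDiff Pointwise

namespace Pool.Agent.Helper64.E0

/-- the law of a fair coin -/
noncomputable def coin : Measure Bool := (PMF.uniformOfFintype Bool).toMeasure

instance : IsProbabilityMeasure coin := by unfold coin; infer_instance

theorem coin_singleton (b : Bool) : coin {b} = 2⁻¹ := by
  unfold coin
  rw [PMF.toMeasure_apply_singleton _ _ (measurableSet_singleton _)]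
  simp

theorem coin_map_not : coin.map not = coin := by
  refine Measure.ext_of_singleton fun b => ?_
  rw [Measure.map_apply (measurable_of_countable _) (measurableSet_singleton _)]
  have h : not ⁻¹' {b} = {!b} := by
    ext c
    cases b <;> cases c <;> simp
  rw [h, coin_singleton, coin_singleton]

variable {S : Type} [DecidableEq S]

/-- the fair coin measure -/
noncomputable def mu (S : Type) : Measure (S → Bool) := Measure.infinitePi fun _ : S => coin

instance : IsProbabilityMeasure (mu S) := by unfold mu; infer_instance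

/-- the Rademacher function -/
noncomputable def r (b : Bool) : ℂ := if b then 1 else -1

/-- the Walsh function -/
noncomputable def chi (A : Finset S) (z : S → Bool) : ℂ := ∏ g ∈ A, r (z g)

omit [DecidableEq S] in
theorem measurable_chi (A : Finset S) : Measurable (chi A) := by
  unfold chi
  exact Finset.measurable_prod _ fun g _ =>
    (measurable_of_countable r).comp (measurable_pi_apply g)

theorem norm_r (b : Bool) : ‖r b‖ = 1 := by cases b <;> simp [r]

theorem r_mul_self (b : Bool) : r b * r b = 1 := by cases b <;> simp [r]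

theorem conj_r (b : Bool) : (starRingEnd ℂ) (r b) = r b := by cases b <;> simp [r]

omit [DecidableEq S] in
theorem norm_chi (A : Finset S) (z : S → Bool) : ‖chi A z‖ = 1 := by
  unfold chi
  rw [norm_prod]
  simp [norm_r]

omit [DecidableEq S] in
theorem conj_chi (A : Finset S) (z : S → Bool) : (starRingEnd ℂ) (chi A z) = chi A z := by
  unfold chi
  rw [map_prod]
  simp [conj_r]

theorem chi_mul (A B : Finset S) (z : S → Bool) : chi A z * chi B z = chi (A ∆ B) z := by
  have h1 : chi A z = chi (A \ B) z * chi (A ∩ B) z := by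
    unfold chi
    rw [← Finset.prod_union (Finset.disjoint_sdiff_inter A B), Finset.sdiff_union_inter]
  have h2 : chi B z = chi (B \ A) z * chi (A ∩ B) z := by
    unfold chi
    rw [Finset.inter_comm, ← Finset.prod_union (Finset.disjoint_sdiff_inter B A),
      Finset.sdiff_union_inter]
  have h3 : chi (A ∆ B) z = chi (A \ B) z * chi (B \ A) z := by
    unfold chi
    rw [← Finset.prod_union]
    · rfl
    · exact disjoint_sdiff_sdiff
  have h4 : chi (A ∩ B) z * chi (A ∩ B) z = 1 := by
    unfold chi
    rw [← Finset.prod_mul_distrib]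
    simp [r_mul_self]
  rw [h1, h2, h3]
  linear_combination (chi (A \ B) z * chi (B \ A) z) * h4

/-- flipping one coordinate -/
def flip (i : S) (z : S → Bool) (j : S) : Bool := if j = i then !(z j) else z j

theorem mp_flip (i : S) : MeasurePreserving (flip i) (mu S) (mu S) := by
  constructor
  · rw [measurable_pi_iff]
    intro j
    unfold flip
    by_cases hj : j = i
    · simp only [hj, if_true]
      exact (measurable_of_countable not).comp (measurable_pi_apply i)
    · simp only [hj, if_false]
      exact measurable_pi_apply j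
  · have h1 := Measure.infinitePi_map_pi (μ := fun _ : S => coin)
      (f := fun j : S => if j = i then not else id) fun j => measurable_of_countable _
    have h2 : (fun j : S => coin.map (if j = i then not else id)) = fun _ => coin := by
      funext j
      split_ifs
      · exact coin_map_not
      · exact Measure.map_id
    have h3 : (fun (z : S → Bool) j => (if j = i then not else id) (z j)) = flip i := by
      funext z j
      unfold flip
      split_ifs <;> rfl
    rw [h3] at h1
    unfold mu
    rw [h1]
    congr 1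

theorem chi_flip {A : Finset S} {i : S} (hi : i ∈ A) (z : S → Bool) :
    chi A (flip i z) = - chi A z := by
  unfold chi
  rw [← Finset.mul_prod_erase A _ hi, ← Finset.mul_prod_erase A (fun g => r (z g)) hi]
  have h1 : r (flip i z i) = - r (z i) := by
    unfold flip
    cases h : z i <;> simp [r]
  have h2 : ∏ x ∈ A.erase i, r (flip i z x) = ∏ x ∈ A.erase i, r (z x) := by
    apply Finset.prod_congr rfl
    intro x hx
    unfold flip
    rw [if_neg (Finset.ne_of_mem_erase hx)]
  rw [h1, h2]
  ring

theorem integral_chi (A : Finset S) : ∫ z, chi A z ∂(mu S) = if A = ∅ then 1 else 0 := by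
  split_ifs with h
  · subst h
    simp [chi]
  · obtain ⟨i, hi⟩ := Finset.nonempty_of_ne_empty h
    have h1 : ∫ z, chi A z ∂(mu S) = ∫ z, chi A (flip i z) ∂(mu S) := by
      conv_lhs => rw [← (mp_flip i).map_eq]
      rw [integral_map (mp_flip i).measurable.aemeasurable
        (measurable_chi A).aestronglyMeasurable]
    simp_rw [chi_flip hi, integral_neg] at h1
    exact self_eq_neg.1 h1

/-- the Walsh function, as an element of `L²` -/
noncomputable def chiL (A : Finset S) : Lp ℂ 2 (mu S) :=
  MemLp.toLp (chi A) (MemLp.of_bound (measurable_chi A).aestronglyMeasurable 1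
    (ae_of_all _ fun z => (norm_chi A z).le))

omit [DecidableEq S] in
theorem chiL_ae (A : Finset S) : (chiL A : (S → Bool) → ℂ) =ᵐ[mu S] chi A :=
  MemLp.coeFn_toLp _

theorem orthonormal_chiL : Orthonormal ℂ (chiL : Finset S → Lp ℂ 2 (mu S)) := by
  rw [orthonormal_iff_ite]
  intro A B
  rw [L2.inner_def]
  have h1 : ∫ a, ⟪(chiL A : (S → Bool) → ℂ) a, (chiL B : (S → Bool) → ℂ) a⟫_ℂ ∂(mu S) =
      ∫ a, chi (A ∆ B) a ∂(mu S) := by
    apply integral_congr_ae
    filter_upwards [chiL_ae A, chiL_ae B] with z hA hB
    rw [hA, hB, RCLike.inner_apply, conj_chi, mul_comm, chi_mul]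
  rw [h1, integral_chi]
  simp [symmDiff_eq_bot, ← Finset.bot_eq_empty]

/-- every product of one-coordinate functions is a combination of Walsh functions -/
theorem inner_box (v : Lp ℂ 2 (mu S)) (hv : ∀ A : Finset S, ⟪chiL A, v⟫_ℂ = 0) (s : Finset S)
    (t : S → Set Bool) : ∫ z in (s : Set S).pi t, v z ∂(mu S) = 0 := by
  classical
  have hm : MeasurableSet ((s : Set S).pi t) :=
    MeasurableSet.pi s.countable_toSet fun _ _ => MeasurableSet.of_discrete
  rw [← integral_indicator hm]
  -- coefficients
  set α : S → ℂ := fun i => ((if true ∈ t i then 1 else 0) + (if false ∈ t i then 1 else 0)) / 2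
  set β : S → ℂ := fun i => ((if true ∈ t i then 1 else 0) - (if false ∈ t i then 1 else 0)) / 2
  have h1 : ∀ i (b : Bool), (if b ∈ t i then (1 : ℂ) else 0) = β i * r b + α i := by
    intro i b
    simp only [α, β]
    cases b <;> simp [r] <;> split_ifs <;> norm_num
  have h2 : ∀ z : S → Bool, ((s : Set S).pi t).indicator (v : (S → Bool) → ℂ) z =
      ∑ A ∈ s.powerset, ((∏ i ∈ A, β i) * ∏ i ∈ s \ A, α i) * (chi A z * v z) := by
    intro z
    have h3 : ∏ i ∈ s, (if z i ∈ t i then (1 : ℂ) else 0) =
        ∑ A ∈ s.powerset, (∏ i ∈ A, β i * r (z i)) * ∏ i ∈ s \ A, α i := by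
      rw [← Finset.prod_add]
      exact Finset.prod_congr rfl fun i _ => h1 i (z i)
    have h4 : ((s : Set S).pi t).indicator (v : (S → Bool) → ℂ) z =
        (∏ i ∈ s, (if z i ∈ t i then (1 : ℂ) else 0)) * v z := by
      by_cases hz : z ∈ (s : Set S).pi t
      · rw [Set.indicator_of_mem hz, Finset.prod_congr rfl fun i hi => if_pos (hz i hi)]
        simp
      · rw [Set.indicator_of_notMem hz]
        simp only [Set.mem_pi, Finset.mem_coe, not_forall] at hz
        obtain ⟨i, hi, hzi⟩ := hz
        rw [Finset.prod_eq_zero hi (if_neg hzi), zero_mul]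
    rw [h4, h3, Finset.sum_mul]
    apply Finset.sum_congr rfl
    intro A _
    rw [Finset.prod_mul_distrib]
    unfold chi
    ring
  simp_rw [h2]
  have h5 : ∀ A : Finset S, Integrable (fun z => chi A z * v z) (mu S) := by
    intro A
    have h6 : Integrable (v : (S → Bool) → ℂ) (mu S) :=
      (Lp.memLp v).integrable (by norm_num)
    refine h6.bdd_mul (c := 1) (measurable_chi A).aestronglyMeasurable
      (ae_of_all _ fun z => (norm_chi A z).le)
  rw [integral_finsetSum _ fun A _ => (h5 A).const_mul _]
  apply Finset.sum_eq_zero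
  intro A _
  rw [integral_const_mul]
  have h7 := hv A
  rw [L2.inner_def] at h7
  have h8 : ∫ a, ⟪(chiL A : (S → Bool) → ℂ) a, v a⟫_ℂ ∂(mu S) = ∫ z, chi A z * v z ∂(mu S) := by
    apply integral_congr_ae
    filter_upwards [chiL_ae A] with z hA
    rw [hA, RCLike.inner_apply, conj_chi, mul_comm]
  rw [← h8, h7, mul_zero]

theorem span_bot : (Submodule.span ℂ (Set.range (chiL : Finset S → Lp ℂ 2 (mu S))))ᗮ = ⊥ := by
  rw [Submodule.eq_bot_iff]
  intro v hv
  rw [Submodule.mem_orthogonal] at hv
  have hv' : ∀ A : Finset S, ⟪chiL A, v⟫_ℂ = 0 := fun A =>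
    hv _ (Submodule.subset_span ⟨A, rfl⟩)
  have h1 : Integrable (v : (S → Bool) → ℂ) (mu S) := (Lp.memLp v).integrable (by norm_num)
  have hall : ∀ s : Set (S → Bool), MeasurableSet s → ∫ z in s, v z ∂(mu S) = 0 := by
    intro s hs
    refine MeasurableSpace.induction_on_inter
      (C := fun s _ => ∫ z in s, v z ∂(mu S) = 0)
      (generateFrom_squareCylinders (α := fun _ : S => Bool)).symm
      (isPiSystem_squareCylinders (fun _ => MeasurableSpace.isPiSystem_measurableSet)
        (by simp)) ?_ ?_ ?_ ?_ s hs
    · simp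
    · rintro _ ⟨s, t, _, rfl⟩
      exact inner_box v hv' s t
    · intro t ht h
      have h2 := integral_add_compl ht h1
      have h3 := inner_box v hv' ∅ fun _ => Set.univ
      simp only [Finset.coe_empty, Set.empty_pi, Measure.restrict_univ] at h3
      rw [h, h3, zero_add] at h2
      exact h2
    · intro f hd hm h
      rw [integral_iUnion hm hd h1.integrableOn]
      simp [h]
  have h2 := h1.ae_eq_zero_of_forall_setIntegral_eq_zero fun s hs _ => hall s hs
  exact (Lp.eq_zero_iff_ae_eq_zero).2 h2

/-- the Walsh basis -/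
noncomputable def basis (S : Type) [DecidableEq S] : HilbertBasis (Finset S) ℂ (Lp ℂ 2 (mu S)) :=
  HilbertBasis.mkOfOrthogonalEqBot orthonormal_chiL span_bot

theorem basis_apply (A : Finset S) : basis S A = chiL A := by
  unfold basis
  rw [HilbertBasis.coe_mkOfOrthogonalEqBot]

/-! ### The Bernoulli shift of a free group -/

/-- the shift -/
def shift {G : Type} [Group G] (g : G) (z : G → Bool) (h : G) : Bool := z (g * h)

theorem mp_shift {G : Type} [Group G] (g : G) :
    MeasurePreserving (shift g) (mu G) (mu G) := by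
  constructor
  · rw [measurable_pi_iff]
    intro h
    exact measurable_pi_apply (g * h)
  · exact Measure.map_infinitePi_infinitePi_of_inj (P := fun _ : G => coin)
      (mul_right_injective g)

theorem chi_shift {G : Type} [Group G] [DecidableEq G] (g : G) (A : Finset G) (z : G → Bool) :
    chi A (shift g z) = chi (g • A) z := by
  unfold chi shift
  rw [← Finset.image_smul, Finset.prod_image fun a _ b _ h => by simpa using h]
  rfl

theorem gap (A : Set (FreeGroup Bool → Bool)) (hA : MeasurableSet A) (δ : ℝ)
    (h : ∀ c : Bool, (mu (FreeGroup Bool)).real (A ∆ (shift (FreeGroup.of c) ⁻¹' A)) ≤ δ) :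
    (mu (FreeGroup Bool)).real A * (1 - (mu (FreeGroup Bool)).real A) ≤ 25 * δ := by
  classical
  set ν := mu (FreeGroup Bool)
  have hδ : 0 ≤ δ := measureReal_nonneg.trans (h true)
  set v : Lp ℂ 2 ν := indicatorConstLp 2 hA (measure_ne_top ν A) (1 : ℂ) with hv
  have hU : ∀ g : FreeGroup Bool, Pool.Helper40.Haagerup.UK (basis (FreeGroup Bool)) g v =
      Lp.compMeasurePreserving (shift g) (mp_shift g) v := by
    intro g
    have h1 : (Pool.Helper40.Haagerup.UK (basis (FreeGroup Bool)) g).toContinuousLinearMap =
        (Lp.compMeasurePreservingₗᵢ ℂ (shift g) (mp_shift g)).toContinuousLinearMap := by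
      apply Pool.Helper40.Haagerup.clm_ext (basis (FreeGroup Bool))
      intro A
      change Pool.Helper40.Haagerup.UK (basis (FreeGroup Bool)) g (basis (FreeGroup Bool) A) =
        Lp.compMeasurePreserving (shift g) (mp_shift g) (basis (FreeGroup Bool) A)
      rw [Pool.Helper40.Haagerup.UK_apply, basis_apply, basis_apply]
      unfold chiL
      rw [Lp.toLp_compMeasurePreserving]
      congr 1
      funext z
      exact (chi_shift g A z).symm
    have h2 := congrArg (fun T => T v) h1
    exact h2
  have hd : ∀ c : Bool, ‖Pool.Helper40.Haagerup.UK (basis (FreeGroup Bool)) (FreeGroup.of c) v - v‖ ≤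
      Real.sqrt δ := by
    intro c
    rw [hU, hv, Lp.indicatorConstLp_compMeasurePreserving, ← dist_eq_norm,
      dist_indicatorConstLp_eq_norm, norm_indicatorConstLp (by norm_num) (by norm_num)]
    rw [norm_one, one_mul]
    have h1 : ((1 : ℝ) / (2 : ℝ≥0∞).toReal) = 1 / 2 := by norm_num
    rw [h1, ← Real.sqrt_eq_rpow]
    apply Real.sqrt_le_sqrt
    rw [symmDiff_comm]
    exact h c
  have h1 := Pool.Helper40.Haagerup.spectral_gap (basis (FreeGroup Bool))
    (a := true) (b := false) (by simp) v (Real.sqrt δ) (hd true) (hd false)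
  have he : basis (FreeGroup Bool) ∅ = indicatorConstLp 2 MeasurableSet.univ
      (measure_ne_top ν Set.univ) (1 : ℂ) := by
    rw [basis_apply]
    unfold chiL indicatorConstLp
    congr 1
    funext z
    simp [chi]
  have hi : ⟪basis (FreeGroup Bool) ∅, v⟫_ℂ = ν.real A := by
    rw [he, hv, L2.inner_indicatorConstLp_one_indicatorConstLp_one]
    simp
  have hn : ‖v‖ ^ 2 = ν.real A := by
    rw [hv, norm_indicatorConstLp (by norm_num) (by norm_num)]
    have h1 : ((1 : ℝ) / (2 : ℝ≥0∞).toReal) = 1 / 2 := by norm_num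
    rw [h1, ← Real.sqrt_eq_rpow, norm_one, one_mul, Real.sq_sqrt measureReal_nonneg]
  have h2 : ‖v - ⟪basis (FreeGroup Bool) ∅, v⟫_ℂ • basis (FreeGroup Bool) ∅‖ ^ 2 =
      ν.real A - ν.real A ^ 2 := by
    have h3 : ‖v - ⟪basis (FreeGroup Bool) ∅, v⟫_ℂ • basis (FreeGroup Bool) ∅‖ ^ 2 =
        ‖v‖ ^ 2 - 2 * (RCLike.re ⟪v, ⟪basis (FreeGroup Bool) ∅, v⟫_ℂ • basis (FreeGroup Bool) ∅⟫_ℂ) +
        ‖⟪basis (FreeGroup Bool) ∅, v⟫_ℂ • basis (FreeGroup Bool) ∅‖ ^ 2 := norm_sub_sq (𝕜 := ℂ) _ _
    rw [h3, inner_smul_right, norm_smul, (basis (FreeGroup Bool)).orthonormal.1 ∅,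
      ← inner_conj_symm v, hi, hn]
    simp only [Complex.conj_ofReal, mul_one, Complex.norm_real, RCLike.re_eq_complex_re]
    rw [← Complex.ofReal_mul, Complex.ofReal_re, Real.norm_eq_abs, sq_abs]
    ring
  have h4 : ‖v - ⟪basis (FreeGroup Bool) ∅, v⟫_ℂ • basis (FreeGroup Bool) ∅‖ ^ 2 ≤
      (5 * Real.sqrt δ) ^ 2 := by gcongr
  rw [h2, mul_pow, Real.sq_sqrt hδ] at h4
  linarith

end Pool.Agent.Helper64.E0
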